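import Pool.Agent.Y482.Cz.Leg

/-!
# Closed 3-braids, any number of full twists: the critical value is the maximal volume
-/

set_option autoImplicit false

namespace Pool.Agent.Y482.Cz

open Finset Filter Topology
open Complex (exp log cos sin I)
open Pool.Agent.W711.HT
open Pool.Agent.W719.AR (Fl)
open Pool.Agent.Y482 (sum_succ_mod)
open Pool.Agent.Y472 (SDZ RCritZ RVal3 Rz Zr S_S0P szz dzz)
open Pool.Agent.Y482.Chi (ChiAng chiVol Lc lg_lc acf Rf bv lgr lcr)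
open scoped Real

section
variable {χ₀ : ℂ} {ρ₀ c C : ℝ} {s dl : ℂ → ℂ → ℂ → ℂ}

/-- the uniform neighbourhood -/
def Near (χ₀ : ℂ) (ε : ℝ) : Prop :=
  RG (χ₀ / 2) ∧
  (∀ t : ℝ, 0 ≤ t → t ≤ 1 → ((0 : ℂ), (0 : ℂ), (t : ℂ) * (χ₀ / 2)) ∈ interior {p | Gd p}) ∧
  ∀ ψ ψ' χ : ℂ, ‖ψ‖ ≤ ε → ‖ψ'‖ ≤ ε → ‖χ - χ₀‖ ≤ ε → ∀ t : ℝ, 0 ≤ t → t ≤ 1 →
    ((t : ℂ) * ψ / 2, (t : ℂ) * ψ' / 2, (χ₀ + (t : ℂ) * (χ - χ₀)) / 2) ∈ interior {p | Gd p}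

theorem near (h : Zr χ₀) : ∃ ε : ℝ, 0 < ε ∧ Near χ₀ ε := by
  obtain ⟨h1, h2, h3, h4⟩ := h
  have hpi := Real.pi_gt_three
  have e1 : (χ₀ / 2).re = χ₀.re / 2 := by
    rw [show χ₀ / 2 = ((1 / 2 : ℝ) : ℂ) * χ₀ by push_cast; ring, Complex.re_ofReal_mul]; ring
  have e2 : (χ₀ / 2).im = χ₀.im / 2 := by
    rw [show χ₀ / 2 = ((1 / 2 : ℝ) : ℂ) * χ₀ by push_cast; ring, Complex.im_ofReal_mul]; ring
  have hR : RG (χ₀ / 2) := ⟨by rw [e1]; linarith, by rw [e1]; linarith, by rw [e2]; linarith⟩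
  have hn : ∀ t : ℝ, 0 ≤ t → t ≤ 1 → ‖(t : ℂ) * (χ₀ / 2)‖ < π / 2 := by
    intro t t0 t1
    have g1 : ((t : ℂ) * (χ₀ / 2)).re = t * (χ₀.re / 2) := by rw [Complex.re_ofReal_mul, e1]
    have g2 : ((t : ℂ) * (χ₀ / 2)).im = t * (χ₀.im / 2) := by rw [Complex.im_ofReal_mul, e2]
    refine lt_of_pow_lt_pow_left₀ 2 (by positivity) ?_
    rw [← Complex.normSq_eq_norm_sq, Complex.normSq_apply, g1, g2]
    have a1 : -(π / 4) ≤ t * (χ₀.re / 2) := by nlinarith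
    have a2 : t * (χ₀.re / 2) ≤ 0 := by nlinarith
    have a3 : 0 ≤ t * (χ₀.im / 2) := by positivity
    have a4 : t * (χ₀.im / 2) ≤ 9 / 10 := by nlinarith
    have b1 : t * (χ₀.re / 2) * (t * (χ₀.re / 2)) ≤ (π / 4) ^ 2 := by nlinarith
    have b2 : t * (χ₀.im / 2) * (t * (χ₀.im / 2)) ≤ (9 / 10) ^ 2 := by nlinarith
    nlinarith
  have hK : IsCompact ((fun t : ℝ => ((0 : ℂ), (0 : ℂ), (t : ℂ) * (χ₀ / 2))) '' Set.Icc 0 1) :=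
    isCompact_Icc.image (by fun_prop)
  have hsub : (fun t : ℝ => ((0 : ℂ), (0 : ℂ), (t : ℂ) * (χ₀ / 2))) '' Set.Icc 0 1 ⊆
      interior {p | Gd p} := by
    rintro _ ⟨t, ht, rfl⟩
    exact mem_interior_iff_mem_nhds.2 (ev_good (hR.smul ht.1 ht.2) (hn t ht.1 ht.2))
  obtain ⟨ε, hε, hth⟩ := hK.exists_thickening_subset_open isOpen_interior hsub
  refine ⟨ε, hε, hR, ?_, ?_⟩
  · intro t t0 t1
    exact hsub ⟨t, ⟨t0, t1⟩, rfl⟩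
  · intro ψ ψ' χ k1 k2 k3 t t0 t1
    apply hth
    rw [Metric.mem_thickening_iff]
    refine ⟨_, ⟨1, ⟨zero_le_one, le_rfl⟩, rfl⟩, ?_⟩
    have n2 : ‖(2 : ℂ)‖ = 2 := by norm_num
    have hb : ∀ x : ℂ, ‖x‖ ≤ ε → ‖(t : ℂ) * x / 2‖ < ε := by
      intro x hx
      rw [norm_div, norm_mul, Complex.norm_real, Real.norm_eq_abs, abs_of_nonneg t0, n2]
      have := norm_nonneg x
      nlinarith
    rw [Prod.dist_eq, Prod.dist_eq]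
    simp only [dist_eq_norm, sub_zero]
    refine max_lt (hb _ k1) (max_lt (hb _ k2) ?_)
    rw [Complex.ofReal_one, one_mul, show (χ₀ + (t : ℂ) * (χ - χ₀)) / 2 - χ₀ / 2 =
      (t : ℂ) * (χ - χ₀) / 2 by ring]
    exact hb _ k3

/-- good points and the volume of a block -/
theorem at_edge (hS0 : S_S0P) (hS : SDZ χ₀ ρ₀ c C s dl) {Λ : ℂ → ℂ}
    (hΛ : ∀ z ∈ Metric.ball (0 : ℂ) (π / 2), HasDerivAt Λ (log (cos z)) z) {ε : ℝ}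
    (hN : Near χ₀ ε) {ψ ψ' χ : ℂ} (h1 : ψ ∈ Rc ρ₀ ρ₀) (h2 : ψ' ∈ Rc ρ₀ ρ₀) (h3 : χ ∈ Rz χ₀ ρ₀)
    (n1 : ‖ψ‖ ≤ ε) (n2 : ‖ψ'‖ ≤ ε) (n3 : ‖χ - χ₀‖ ≤ ε) :
    BG (2 * π * dl ψ ψ' χ / 2) (ψ / 2) (ψ' / 2) (χ / 2) ∧
    2 * π * (s ψ ψ' χ).re = bv (2 * π * dl ψ ψ' χ / 2) (ψ / 2) (ψ' / 2) (χ / 2) +
      ψ.im * (Lg (2 * π * dl ψ ψ' χ) ψ).im + ψ'.im * (Lg (2 * π * dl ψ ψ' χ) ψ').im +
      χ.im * (Lc (2 * π * dl ψ ψ' χ) χ).im -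
      (EL Λ (ψ / 2) - EL Λ (ψ / 2 + χ / 2) - (EL Λ (ψ' / 2) - EL Λ (ψ' / 2 + χ / 2))) := by
  obtain ⟨hR, hp, hq⟩ := hN
  have hq' := hq ψ ψ' χ n1 n2 n3
  have hg := interior_subset (s := {p | Gd p}) (hq' 1 zero_le_one le_rfl)
  simp only [Complex.ofReal_one, one_mul, add_sub_cancel] at hg
  have hu := u_eq hS h1 h2 h3 hg
  have hB : BG (2 * π * dl ψ ψ' χ / 2) (ψ / 2) (ψ' / 2) (χ / 2) := by
    rw [hu]
    exact hg.bg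
  have key := leg2 hS0 hS hΛ hR hp h1 h2 h3 hq'
  obtain ⟨g1, g2, g3⟩ := hB.lg1
  refine ⟨hB, ?_⟩
  have hi : ∀ x : ℂ, (x / 2).im = x.im / 2 := by
    intro x
    rw [show x / 2 = ((1 / 2 : ℝ) : ℂ) * x by push_cast; ring, Complex.im_ofReal_mul]; ring
  rw [← key, g1, g2, g3]
  unfold vc
  rw [hi, hi, hi]
  ring

/-- the critical points of the potential -/
theorem crit_of (hS0 : S_S0P) (hS : SDZ χ₀ ρ₀ c C s dl) {Λ : ℂ → ℂ}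
    (hΛ : ∀ z ∈ Metric.ball (0 : ℂ) (π / 2), HasDerivAt Λ (log (cos z)) z) {ε : ℝ}
    (hN : Near χ₀ ε) {n : ℕ} {a : ℕ → ℤ} {m : ℤ} {z : ℕ → ℂ} {χ : ℂ}
    (hn : 1 ≤ n) (h : RCritZ s χ₀ ρ₀ n a m z χ) (hz : ∀ j < n, ‖z j‖ ≤ ε) (hχ : ‖χ - χ₀‖ ≤ ε) :
    CritZ n a m z χ (fun j => 2 * π * dl (z j) (z ((j + 1) % n)) χ) := by
  obtain ⟨mc, hv, ha⟩ := h
  have hpi : (π : ℂ) ≠ 0 := Complex.ofReal_ne_zero.2 Real.pi_ne_zero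
  refine ⟨?_, ?_, ?_⟩
  · intro j hj
    have h1 : (j + 1) % n < n := Nat.mod_lt _ (by omega)
    exact (at_edge hS0 hS hΛ hN (hv j hj).1 (hv _ h1).1 mc (hz j hj) (hz _ h1) hχ).1
  · intro j hj
    have h1 : (j + 1) % n < n := Nat.mod_lt _ (by omega)
    have h2 : ((j + 1) % n + 1) % n < n := Nat.mod_lt _ (by omega)
    obtain ⟨m1, -, -, e1⟩ := hv j hj
    obtain ⟨m2, -⟩ := hv _ h1
    obtain ⟨m3, -⟩ := hv _ h2
    rw [(sder2 hS m1 m2 mc).deriv, (hS.sder _ m2 _ m3 _ mc).deriv] at e1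
    have h3 : (2 : ℂ) * π * (Complex.I * a ((j + 1) % n) * z ((j + 1) % n) / (2 * π) + Complex.I +
      -(1 / (2 * π)) * Lg (2 * π * dl (z j) (z ((j + 1) % n)) χ) (z ((j + 1) % n)) +
      -(1 / (2 * π)) * Lg (2 * π * dl (z ((j + 1) % n)) (z (((j + 1) % n + 1) % n)) χ)
        (z ((j + 1) % n))) = 0 := by rw [e1, mul_zero]
    field_simp at h3
    linear_combination h3
  · have e2 : ∀ j ∈ range n, deriv (fun w => s (z j) (z ((j + 1) % n)) w) χ =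
        -(1 / (2 * π)) * Lc (2 * π * dl (z j) (z ((j + 1) % n)) χ) χ := by
      intro j hj
      rw [mem_range] at hj
      have h1 : (j + 1) % n < n := Nat.mod_lt _ (by omega)
      obtain ⟨m1, -⟩ := hv j hj
      obtain ⟨m2, -⟩ := hv _ h1
      rw [(hS.sderc _ m1 _ m2 _ mc).deriv, lg_lc]
    rw [sum_congr rfl e2, ← mul_sum] at ha
    have h3 : (2 : ℂ) * π * (Complex.I * m * χ / π + Complex.I + -(1 / (2 * π)) *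
      ∑ j ∈ range n, Lc (2 * π * dl (z j) (z ((j + 1) % n)) χ) χ) = 0 := by rw [ha, mul_zero]
    field_simp at h3
    linear_combination h3

/-- the critical value -/
theorem val_of (hS0 : S_S0P) (hS : SDZ χ₀ ρ₀ c C s dl) {Λ : ℂ → ℂ}
    (hΛ : ∀ z ∈ Metric.ball (0 : ℂ) (π / 2), HasDerivAt Λ (log (cos z)) z) {ε : ℝ}
    (hN : Near χ₀ ε) {n : ℕ} {a : ℕ → ℤ} {m : ℤ} {z : ℕ → ℂ} {χ : ℂ}
    (hn : 1 ≤ n) (h : RCritZ s χ₀ ρ₀ n a m z χ) (hz : ∀ j < n, ‖z j‖ ≤ ε) (hχ : ‖χ - χ₀‖ ≤ ε) :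
    2 * π * (RVal3 s n a m z χ).re = ∑ j ∈ range n,
      bv (2 * π * dl (z j) (z ((j + 1) % n)) χ / 2) (z j / 2) (z ((j + 1) % n) / 2) (χ / 2) := by
  have hX := crit_of hS0 hS hΛ hN hn h hz hχ
  obtain ⟨mc, hv, ha⟩ := h
  unfold RVal3
  rw [Complex.add_re, Complex.re_sum, mul_add, mul_sum]
  have e0 : ∀ j ∈ range n, 2 * π * (Complex.I * a j * z j ^ 2 / (4 * π) + Complex.I * z j +
      s (z j) (z ((j + 1) % n)) χ).re =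
      bv (2 * π * dl (z j) (z ((j + 1) % n)) χ / 2) (z j / 2) (z ((j + 1) % n) / 2) (χ / 2) +
      ((z j).im * ((Lg (2 * π * dl (z j) (z ((j + 1) % n)) χ) (z j)).im -
        ((a j : ℝ) * (z j).re + 2 * π))) +
      (z ((j + 1) % n)).im *
        (Lg (2 * π * dl (z j) (z ((j + 1) % n)) χ) (z ((j + 1) % n))).im +
      χ.im * (Lc (2 * π * dl (z j) (z ((j + 1) % n)) χ) χ).im -
      ((EL Λ (z j / 2) - EL Λ (z j / 2 + χ / 2)) -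
        (EL Λ (z ((j + 1) % n) / 2) - EL Λ (z ((j + 1) % n) / 2 + χ / 2))) := by
    intro j hj
    rw [mem_range] at hj
    have h1 : (j + 1) % n < n := Nat.mod_lt _ (by omega)
    obtain ⟨m1, i1, n1, -⟩ := hv j hj
    obtain ⟨m2, i2, n2, -⟩ := hv _ h1
    have t1 := (at_edge hS0 hS hΛ hN m1 m2 mc (hz j hj) (hz _ h1) hχ).2
    have t2 := Pool.Agent.W571.AR.val_re (a j) (z j)
    rw [Complex.add_re, mul_add, t1, t2]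
    ring
  rw [sum_congr rfl e0, sum_sub_distrib, sum_sub_distrib,
    sum_succ_mod n hn (fun j => EL Λ (z j / 2) - EL Λ (z j / 2 + χ / 2)), sub_self, sub_zero,
    sum_add_distrib, sum_add_distrib, sum_add_distrib,
    ← sum_succ_mod n hn (fun j => (z j).im * ((Lg (2 * π * dl (z j) (z ((j + 1) % n)) χ) (z j)).im -
        ((a j : ℝ) * (z j).re + 2 * π))), ← mul_sum]
  have e1 : ∑ j ∈ range n, ((z ((j + 1) % n)).im *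
      ((Lg (2 * π * dl (z ((j + 1) % n)) (z (((j + 1) % n + 1) % n)) χ) (z ((j + 1) % n))).im -
        ((a ((j + 1) % n) : ℝ) * (z ((j + 1) % n)).re + 2 * π))) +
      ∑ j ∈ range n, (z ((j + 1) % n)).im *
        (Lg (2 * π * dl (z j) (z ((j + 1) % n)) χ) (z ((j + 1) % n))).im = 0 := by
    rw [← sum_add_distrib]
    refine sum_eq_zero fun j hj => ?_
    rw [mem_range] at hj
    have e2 := Pool.Agent.W571.AR.im_eq _ _ _ (hX.vert j hj)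
    rw [Complex.add_im] at e2
    linear_combination (-(z ((j + 1) % n)).im) * e2
  have e3 : 2 * π * (Complex.I * m * χ ^ 2 / (2 * π) + Complex.I * χ).re =
      -(χ.im * (2 * m * χ.re + 2 * π)) := by
    have := Pool.Agent.W571.AR.val_re (2 * m) χ
    push_cast at this
    rw [show Complex.I * (m : ℂ) * χ ^ 2 / (2 * π) = Complex.I * (2 * m) * χ ^ 2 / (4 * π) by
      ring, this]
  have e4 := hX.axis
  have e5 : (Complex.I * (2 * m * χ + 2 * π)).im = 2 * m * χ.re + 2 * π := by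
    simp
  have e6 : ∑ j ∈ range n, (Lc (2 * π * dl (z j) (z ((j + 1) % n)) χ) χ).im =
      2 * m * χ.re + 2 * π := by
    rw [← e5, e4, Complex.im_sum]
  rw [e3, e6]
  linear_combination e1

end

/-- GEOZ, any exponent with the properties `SDZ` -/
theorem geoz' (hS0 : S_S0P) : ∀ χ₀ : ℂ, Zr χ₀ → ∃ ε : ℝ, 0 < ε ∧
    ∀ (ρ₀ c C : ℝ) (s dl : ℂ → ℂ → ℂ → ℂ), SDZ χ₀ ρ₀ c C s dl → ∀ (n : ℕ) (a : ℕ → ℤ) (m : ℤ)
      (z : ℕ → ℂ) (χ : ℂ), 1 ≤ n → RCritZ s χ₀ ρ₀ n a m z χ → (∀ j < n, ‖z j‖ ≤ ε) →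
      ‖χ - χ₀‖ ≤ ε →
    IsGreatest {W : ℝ | ∃ f g F G : ℕ → Fl, ChiAng n a m f g F G ∧ chiVol n f g F G = W}
      (2 * π * (RVal3 s n a m z χ).re) := by
  intro χ₀ hZ
  obtain ⟨ε, hε, hN⟩ := near hZ
  obtain ⟨Λ, hΛ⟩ := ex_prim
  refine ⟨ε, hε, ?_⟩
  intro ρ₀ c C s dl hS n a m z χ hn h hz hχ
  rw [val_of hS0 hS hΛ hN hn h hz hχ]
  exact geow Pool.Agent.W120.VC.tet hn (crit_of hS0 hS hΛ hN hn h hz hχ)

/-- GEOZ -/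
theorem geoz (hS0 : S_S0P) : ∀ χ₀ : ℂ, Zr χ₀ → ∃ ε : ℝ, 0 < ε ∧
    ∀ ρ₀ c C : ℝ, SDZ χ₀ ρ₀ c C szz dzz → ∀ (n : ℕ) (a : ℕ → ℤ) (m : ℤ)
      (z : ℕ → ℂ) (χ : ℂ), 1 ≤ n → RCritZ szz χ₀ ρ₀ n a m z χ → (∀ j < n, ‖z j‖ ≤ ε) →
      ‖χ - χ₀‖ ≤ ε →
    IsGreatest {W : ℝ | ∃ f g F G : ℕ → Fl, ChiAng n a m f g F G ∧ chiVol n f g F G = W}
      (2 * π * (RVal3 szz n a m z χ).re) := by
  intro χ₀ hZ
  obtain ⟨ε, hε, h⟩ := geoz' hS0 χ₀ hZ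
  exact ⟨ε, hε, fun ρ₀ c C hS => h ρ₀ c C szz dzz hS⟩

end Pool.Agent.Y482.Cz
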