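import Pool.Agent.Y482.Cz.Blk
import Pool.Agent.Y482.Chi.Path

/-!
# Elementary facts about arguments
-/

set_option autoImplicit false

namespace Pool.Agent.Y482.Cz

open Filter
open Complex (exp log cos sin I)
open Pool.Agent.Y482.Chi hiding tri_a1 tri_a2 tri_b1 tri_b2
open scoped Real Topology ComplexConjugate

lemma arg_half {z : ℂ} (h : 0 < z.re) : |(log z).im| < π / 2 := by
  rw [Complex.log_im]
  exact Complex.abs_arg_lt_pi_div_two_iff.2 (Or.inl h)

lemma arg_parts {z : ℂ} : ‖z‖ * Real.cos (log z).im = z.re ∧ ‖z‖ * Real.sin (log z).im = z.im := by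
  rw [Complex.log_im]
  exact ⟨Complex.norm_mul_cos_arg z, Complex.norm_mul_sin_arg z⟩

lemma sc_quarter : Real.sin (π / 4) = Real.cos (π / 4) := by
  rw [Real.sin_pi_div_four, Real.cos_pi_div_four]

lemma quarter {z : ℂ} (h : 0 < z.re) (h' : z.im < z.re) : (log z).im < π / 4 := by
  have hpi := Real.pi_pos
  have h1 := arg_half h
  obtain ⟨e1, e2⟩ := arg_parts (z := z)
  rw [abs_lt] at h1
  by_contra hc
  rw [not_lt] at hc
  have s1 : Real.sin (π / 4) ≤ Real.sin (log z).im :=
    Real.sin_le_sin_of_le_of_le_pi_div_two (by linarith) (by linarith) hc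
  have s2 : Real.cos (log z).im ≤ Real.cos (π / 4) :=
    Real.cos_le_cos_of_nonneg_of_le_pi (by linarith) (by linarith) hc
  rw [sc_quarter] at s1
  have := mul_le_mul_of_nonneg_left (s2.trans s1) (norm_nonneg z)
  linarith

lemma quarter' {z : ℂ} (h : 0 < z.re) (h' : -z.im < z.re) : -(π / 4) < (log z).im := by
  have hpi := Real.pi_pos
  have h1 := arg_half h
  obtain ⟨e1, e2⟩ := arg_parts (z := z)
  rw [abs_lt] at h1
  by_contra hc
  rw [not_lt] at hc
  have s1 : Real.sin (log z).im ≤ Real.sin (-(π / 4)) :=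
    Real.sin_le_sin_of_le_of_le_pi_div_two (by linarith) (by linarith) hc
  have s2 : Real.cos (-(log z).im) ≤ Real.cos (π / 4) :=
    Real.cos_le_cos_of_nonneg_of_le_pi (by linarith) (by linarith) (by linarith)
  rw [Real.cos_neg] at s2
  rw [Real.sin_neg, sc_quarter] at s1
  have := mul_le_mul_of_nonneg_left (show Real.cos (log z).im ≤ -Real.sin (log z).im by linarith)
    (norm_nonneg z)
  linarith

lemma arg_nonneg {z : ℂ} (h : 0 ≤ z.im) : 0 ≤ (log z).im := by
  rw [Complex.log_im]
  exact Complex.arg_nonneg_iff.2 h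

lemma arg_nonpos {z : ℂ} (h0 : 0 < z.re) (h : z.im ≤ 0) : (log z).im ≤ 0 := by
  have h1 := arg_half h0
  obtain ⟨e1, e2⟩ := arg_parts (z := z)
  have hpi := Real.pi_pos
  rw [abs_lt] at h1
  by_contra hc
  rw [not_le] at hc
  have s1 : 0 < Real.sin (log z).im := Real.sin_pos_of_pos_of_lt_pi hc (by linarith)
  have z0 : 0 < ‖z‖ := by
    rw [norm_pos_iff]
    intro hz
    rw [hz] at h0
    simp at h0
  have := mul_pos z0 s1
  linarith

lemma three_quarter {z : ℂ} (h : 0 ≤ z.im) (h' : 0 < z.re + z.im) : (log z).im < 3 * π / 4 := by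
  have hpi := Real.pi_pos
  obtain ⟨e1, e2⟩ := arg_parts (z := z)
  have h1 := arg_nonneg h
  have h2 : (log z).im ≤ π := Complex.log_im_le_pi z
  by_contra hc
  rw [not_lt] at hc
  have s1 : Real.cos (log z).im ≤ Real.cos (3 * π / 4) :=
    Real.cos_le_cos_of_nonneg_of_le_pi (by linarith) h2 hc
  have s2 : Real.sin (π - (log z).im) ≤ Real.sin (π / 4) :=
    Real.sin_le_sin_of_le_of_le_pi_div_two (by linarith) (by linarith) (by linarith)
  have e3 : Real.cos (3 * π / 4) = -Real.cos (π / 4) := by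
    rw [show 3 * π / 4 = π - π / 4 by ring, Real.cos_pi_sub]
  rw [Real.sin_pi_sub, sc_quarter] at s2
  have := mul_le_mul_of_nonneg_left
    (show Real.cos (log z).im + Real.sin (log z).im ≤ 0 by linarith) (norm_nonneg z)
  linarith

lemma log_mul_of {x y : ℂ} (hx : x ≠ 0) (hy : y ≠ 0) (h1 : -π < (log x).im + (log y).im)
    (h2 : (log x).im + (log y).im < π) : log (x * y) = log x + log y := by
  have e : x * y = exp (log x + log y) := by
    rw [Complex.exp_add, Complex.exp_log hx, Complex.exp_log hy]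
  rw [e, Complex.log_exp]
  · rw [Complex.add_im]; exact h1
  · rw [Complex.add_im]; exact h2.le

lemma sp_of_im {z : ℂ} (h0 : z ≠ 0) (h : (log z).im < π) : z ∈ Complex.slitPlane := by
  rw [Complex.mem_slitPlane_iff_arg]
  refine ⟨?_, h0⟩
  rw [← Complex.log_im]
  exact h.ne

lemma sp_of_re {z : ℂ} (h : 0 < z.re) : z ∈ Complex.slitPlane := by
  rw [Complex.mem_slitPlane_iff]
  exact Or.inl h

lemma ne_of_re {z : ℂ} (h : 0 < z.re) : z ≠ 0 := by
  intro h0
  rw [h0] at h
  simp at h

/-- the principal square root -/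
lemma sqrt_sq {T : ℂ} (h : 0 < T.re) : exp (log (T ^ 2) / 2) = T := by
  have h1 := arg_half h
  have hpi := Real.pi_pos
  rw [abs_lt] at h1
  have h0 := ne_of_re h
  rw [sq, log_mul_of h0 h0 (by linarith) (by linarith)]
  rw [show (log T + log T) / 2 = log T by ring, Complex.exp_log h0]

lemma sq_sp {T : ℂ} (h : 0 < T.re) : T ^ 2 ∈ Complex.slitPlane := by
  have h1 := arg_half h
  have hpi := Real.pi_pos
  rw [abs_lt] at h1
  have h0 := ne_of_re h
  refine sp_of_im (pow_ne_zero 2 h0) ?_
  rw [sq, log_mul_of h0 h0 (by linarith) (by linarith), Complex.add_im]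
  linarith

/-- sign of the imaginary part of a quotient -/
lemma im_pos_of {z N D : ℂ} (h : z * D = N) (hD : 0 < (N * conj D).im) : 0 < z.im := by
  rw [← h, mul_assoc, Complex.mul_conj, Complex.im_mul_ofReal] at hD
  have h0 := Complex.normSq_nonneg D
  by_contra hc
  rw [not_lt] at hc
  nlinarith

/-! ### The inverse of the cosine -/

/-- the domain -/
def SR (R : ℂ) : Prop :=
  1 - R ^ 2 ∈ Complex.slitPlane ∧ I * R + exp (log (1 - R ^ 2) / 2) ∈ Complex.slitPlane

lemma acf_diff {R : ℂ} (hR : SR R) : DifferentiableAt ℂ acf R := by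
  obtain ⟨h1, h2⟩ := hR
  have e1 : DifferentiableAt ℂ (fun R : ℂ => log (1 - R ^ 2)) R :=
    DifferentiableAt.clog (by fun_prop) h1
  have e2 : DifferentiableAt ℂ (fun R : ℂ => log (I * R + exp (log (1 - R ^ 2) / 2))) R :=
    DifferentiableAt.clog (by fun_prop) h2
  unfold acf
  exact (e2.const_mul I).const_add _

lemma acf_cos' {R : ℂ} (hR : SR R) : cos (acf R) = R := by
  obtain ⟨h2, h3⟩ := hR
  replace h2 := Complex.slitPlane_ne_zero h2
  replace h3 := Complex.slitPlane_ne_zero h3
  set Q := exp (log (1 - R ^ 2) / 2) with hQ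
  have hQ2 : Q ^ 2 = 1 - R ^ 2 := by
    rw [hQ, ← Complex.exp_nat_mul]
    push_cast
    rw [show (2 : ℂ) * (log (1 - R ^ 2) / 2) = log (1 - R ^ 2) by ring, Complex.exp_log h2]
  have h4 : exp (log (I * R + Q)) = I * R + Q := Complex.exp_log h3
  have h5 : exp (-log (I * R + Q)) = Q - I * R := by
    rw [Complex.exp_neg, h4, inv_eq_of_mul_eq_one_right]
    linear_combination hQ2 - R ^ 2 * Complex.I_sq
  unfold acf
  rw [← hQ, show (π : ℂ) / 2 + I * log (I * R + Q) = π / 2 - -(I * log (I * R + Q)) by ring,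
    Complex.cos_pi_div_two_sub, Complex.sin]
  rw [show -(-(I * log (I * R + Q))) * I = -log (I * R + Q) by
      linear_combination (log (I * R + Q)) * Complex.I_sq,
    show -(I * log (I * R + Q)) * I = log (I * R + Q) by
      linear_combination (-log (I * R + Q)) * Complex.I_sq, h4, h5]
  linear_combination (-R) * Complex.I_sq

lemma cos_unique' {x y : ℂ} (hx : 0 < x.re ∧ x.re < π) (hy : 0 < y.re ∧ y.re < π)
    (h : cos x = cos y) : x = y := by
  have hpi := Real.pi_pos
  obtain ⟨k, hk⟩ := Complex.cos_eq_cos_iff.1 h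
  have e : ((2 : ℂ) * k * π).re = 2 * k * π := by
    have : ((2 : ℂ) * k * π) = ((2 * k * π : ℝ) : ℂ) := by push_cast; ring
    rw [this, Complex.ofReal_re]
  rcases hk with hk | hk
  · have h1 := congrArg Complex.re hk
    rw [Complex.add_re, e] at h1
    have h2 : (k : ℝ) < 1 := by
      by_contra hc
      rw [not_lt] at hc
      nlinarith
    have h3 : (-1 : ℝ) < k := by
      by_contra hc
      rw [not_lt] at hc
      nlinarith
    have h2' : k < 1 := by exact_mod_cast h2
    have h3' : -1 < k := by exact_mod_cast h3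
    have : k = 0 := by omega
    rw [hk, this]
    simp
  · exfalso
    have h1 := congrArg Complex.re hk
    rw [Complex.sub_re, e] at h1
    have h2 : (k : ℝ) < 1 := by
      by_contra hc
      rw [not_lt] at hc
      nlinarith
    have h3 : (0 : ℝ) < k := by
      by_contra hc
      rw [not_lt] at hc
      nlinarith
    have h2' : k < 1 := by exact_mod_cast h2
    have h3' : 0 < k := by exact_mod_cast h3
    omega

/-! ### Open conditions -/

section
variable {X : Type*} [TopologicalSpace X] {x : X}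

lemma ev_sp {f : X → ℂ} (hf : ContinuousAt f x) (h : f x ∈ Complex.slitPlane) :
    ∀ᶠ p in 𝓝 x, f p ∈ Complex.slitPlane :=
  hf.eventually (Complex.isOpen_slitPlane.mem_nhds h)

lemma cim {f : X → ℂ} (hf : ContinuousAt f x) : ContinuousAt (fun p => (f p).im) x :=
  Complex.continuous_im.continuousAt.comp hf

lemma cre {f : X → ℂ} (hf : ContinuousAt f x) : ContinuousAt (fun p => (f p).re) x :=
  Complex.continuous_re.continuousAt.comp hf

lemma ev_tri {A B : X → ℂ} (hA : ContinuousAt A x) (hB : ContinuousAt B x)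
    (h : Tri (A x) (B x)) (he : ∀ᶠ p in 𝓝 x, exp (A p) + exp (-B p) = 1) :
    ∀ᶠ p in 𝓝 x, Tri (A p) (B p) := by
  filter_upwards [he, continuousAt_const.eventually_lt (cim hA) h.pA,
    continuousAt_const.eventually_lt (cim hB) h.pB,
    ((cim hA).add (cim hB)).eventually_lt continuousAt_const h.lt] with p h1 h2 h3 h4
  exact ⟨h1, h2, h3, h4⟩

lemma ev_eq {L R : X → ℂ} (hL : ContinuousAt L x) (hR : ContinuousAt R x) (h : L x = R x)
    (he : ∀ᶠ p in 𝓝 x, exp (L p) = exp (R p)) : ∀ᶠ p in 𝓝 x, L p = R p := by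
  have h1 : ContinuousAt (fun p => |(L p).im - (R p).im|) x := ((cim hL).sub (cim hR)).abs
  have h2 : |(L x).im - (R x).im| < 2 * π := by
    rw [h, sub_self, abs_zero]
    exact Real.two_pi_pos
  filter_upwards [he, h1.eventually_lt continuousAt_const h2] with p h3 h4
  exact exp_inj' h3 h4

end

end Pool.Agent.Y482.Cz
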