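import Pool.Agent.Y482.Chi.Max

/-!
# The blocks, general form
-/

set_option autoImplicit false

namespace Pool.Agent.Y482.Cz

open Complex (exp log cos sin I)
open Pool.Agent.Y482.Chi hiding tri_a1 tri_a2 tri_b1 tri_b2
open scoped Real Topology

/-- a triangle, from rough bounds of the arguments -/
lemma tri_of {A B : ℂ} (h : exp A + exp (-B) = 1) (hz : 0 < (exp A).im) (a1 : -π < A.im)
    (a2 : A.im < 2 * π) (b1 : -π < B.im) (b2 : B.im < 2 * π) : Tri A B := by
  have hpi := Real.pi_pos
  have key : ∀ {x : ℝ}, -π < x → x < 2 * π → 0 < Real.sin x → 0 < x ∧ x < π := by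
    intro x h1 h2 h3
    constructor
    · by_contra hc
      rw [not_lt] at hc
      have := Real.sin_nonpos_of_nonpos_of_neg_pi_le hc h1.le
      linarith
    · by_contra hc
      rw [not_lt] at hc
      have h4 : Real.sin x = -Real.sin (x - π) := by rw [Real.sin_sub_pi]; ring
      have := Real.sin_nonneg_of_nonneg_of_le_pi (x := x - π) (by linarith) (by linarith)
      linarith
  have pos : ∀ {r s : ℝ}, 0 < Real.exp r * s → 0 < s := fun {r s} h =>
    (mul_pos_iff_of_pos_left (Real.exp_pos r)).1 h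
  rw [Complex.exp_im] at hz
  have hA := key a1 a2 (pos hz)
  have h1 := congrArg Complex.im h
  simp only [Complex.add_im, Complex.exp_im, Complex.neg_re, Complex.neg_im, Real.sin_neg,
    Complex.one_im] at h1
  have hB := key b1 b2 (pos (r := -B.re) (by linarith))
  refine ⟨h, hA.1, hB.1, ?_⟩
  have e1 : exp (-B) * exp B = 1 := by rw [← Complex.exp_add]; simp
  have e2 : exp (A + B) = exp B - 1 := by
    rw [Complex.exp_add]
    linear_combination (exp B) * h - e1
  have e3 := congrArg Complex.im e2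
  rw [Complex.sub_im, Complex.one_im, sub_zero, Complex.exp_im, Complex.exp_im,
    Complex.add_im] at e3
  have e4 : 0 < Real.exp B.re * Real.sin B.im :=
    mul_pos (Real.exp_pos _) (Real.sin_pos_of_pos_of_lt_pi hB.1 hB.2)
  have e5 : 0 < Real.sin (A.im + B.im) := pos (r := (A + B).re) (by linarith)
  exact (key (by linarith) (by linarith) e5).2

lemma eq_a1 {a b : ℂ} (k1 : cos b ≠ 0) (k3 : cos (a + b) ≠ 0) (k5 : sin a ≠ 0) :
    exp (aA1 a b) + exp (-aB1 a b) = 1 := by
  have e1 : exp (aA1 a b) = cos b * (cos a + sin a * I) / cos (a + b) := by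
    unfold aA1
    rw [Complex.exp_sub, Complex.exp_add, Complex.exp_log k1, Complex.exp_log k3, expI]
  have e2 : exp (-aB1 a b) = -I * (cos b - sin b * I) * sin a / cos (a + b) := by
    unfold aB1
    rw [show -(I * (π / 2) + log (cos (a + b)) + I * b - log (sin a)) =
      -(I * (π / 2)) + -(I * b) + log (sin a) - log (cos (a + b)) by ring,
      Complex.exp_sub, Complex.exp_add, Complex.exp_add, Complex.exp_log k5, Complex.exp_log k3,
      exp_nhalf, expnI]
  rw [e1, e2, ← add_div, div_eq_one_iff_eq k3, Complex.cos_add]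
  linear_combination (sin a * sin b) * Complex.I_sq

lemma eq_a2 {a b c : ℂ} (k1 : cos (b + c) ≠ 0) (k3 : cos (a - b) ≠ 0) (k5 : sin (a + c) ≠ 0) :
    exp (aA2 a b c) + exp (-aB2 a b c) = 1 := by
  have e1 : exp (aA2 a b c) = I * sin (a + c) * (cos (a - b) - sin (a - b) * I) / cos (b + c) := by
    unfold aA2
    rw [show I * (π / 2) + log (sin (a + c)) - I * a + I * b - log (cos (b + c)) =
      I * (π / 2) + log (sin (a + c)) + -(I * (a - b)) - log (cos (b + c)) by ring,
      Complex.exp_sub, Complex.exp_add, Complex.exp_add, Complex.exp_log k1, Complex.exp_log k5,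
      exp_half, expnI]
  have e2 : exp (-aB2 a b c) = (cos (a + c) - sin (a + c) * I) * cos (a - b) / cos (b + c) := by
    unfold aB2
    rw [show -(log (cos (b + c)) + I * a + I * c - log (cos (a - b))) =
      -(I * (a + c)) + log (cos (a - b)) - log (cos (b + c)) by ring,
      Complex.exp_sub, Complex.exp_add, Complex.exp_log k1, Complex.exp_log k3, expnI]
  rw [e1, e2, ← add_div, div_eq_one_iff_eq k1, show b + c = (a + c) - (a - b) by ring,
    Complex.cos_sub (a + c) (a - b)]
  linear_combination (-sin (a + c) * sin (a - b)) * Complex.I_sq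

lemma eq_b1 {a b c : ℂ} (k1 : cos b ≠ 0) (k3 : cos (b + c) ≠ 0) (k5 : cos (a + b) ≠ 0)
    (k7 : sin (a + c) ≠ 0) (u1 : uph a b c ≠ 0) : exp (bA1 a b c) + exp (-bB1 a b c) = 1 := by
  have e1 : exp (bA1 a b c) = uph a b c / (cos (a + b) * cos (b + c)) := by
    unfold bA1 Chi.ups
    rw [Complex.exp_sub, Complex.exp_sub, Complex.exp_log k3, Complex.exp_log k5,
      Complex.exp_log u1, div_div]
  have e2 : exp (-bB1 a b c) = -I * (cos b - sin b * I) * cos b * sin (a + c) /
      (cos (a + b) * cos (b + c)) := by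
    unfold bB1
    rw [show -(I * (π / 2) + I * b + log (cos (a + b)) + log (cos (b + c)) - log (cos b) -
      log (sin (a + c))) = -(I * (π / 2)) + -(I * b) + log (cos b) + log (sin (a + c)) -
      log (cos (a + b)) - log (cos (b + c)) by ring,
      Complex.exp_sub, Complex.exp_sub, Complex.exp_add, Complex.exp_add, Complex.exp_add,
      Complex.exp_log k1, Complex.exp_log k3, Complex.exp_log k5, Complex.exp_log k7,
      exp_nhalf, expnI, div_div]
  rw [e1, e2, ← add_div, div_eq_one_iff_eq (mul_ne_zero k5 k3)]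
  unfold uph
  rw [expI, Complex.cos_add a b, Complex.cos_add b c, Complex.cos_add a c, Complex.sin_add a c]
  linear_combination (cos b * sin b * (sin a * cos c + cos a * sin c)) * Complex.I_sq -
    (sin a * sin c) * Complex.sin_sq_add_cos_sq b

lemma eq_b2 {a b c : ℂ} (k1 : cos b ≠ 0) (k3 : cos (b + c) ≠ 0) (k5 : cos (a - b) ≠ 0)
    (k7 : sin a ≠ 0) (u1 : uph a b c ≠ 0) : exp (bA2 a b c) + exp (-bB2 a b c) = 1 := by
  have e1 : exp (bA2 a b c) = I * sin a * (cos b + sin b * I) * cos (b + c) / uph a b c := by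
    unfold bA2 Chi.ups
    rw [Complex.exp_sub, Complex.exp_add, Complex.exp_add, Complex.exp_add, Complex.exp_log k3,
      Complex.exp_log k7, Complex.exp_log u1, exp_half, expI]
  have e2 : exp (-bB2 a b c) = (cos c + sin c * I) * cos (a - b) * cos b / uph a b c := by
    unfold bB2 Chi.ups
    rw [show -(log (uph a b c) - I * c - log (cos (a - b)) - log (cos b)) =
      I * c + log (cos (a - b)) + log (cos b) - log (uph a b c) by ring,
      Complex.exp_sub, Complex.exp_add, Complex.exp_add, Complex.exp_log k1, Complex.exp_log k5,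
      Complex.exp_log u1, expI]
  rw [e1, e2, ← add_div, div_eq_one_iff_eq u1]
  unfold uph
  rw [expI, Complex.cos_sub a b, Complex.cos_add b c, Complex.cos_add a c, Complex.sin_add a c]
  linear_combination (sin a * sin b * (cos b * cos c - sin b * sin c)) * Complex.I_sq +
    (sin a * sin c) * Complex.sin_sq_add_cos_sq b

/-- the data of a block: `a, b, d, c` are the halves of `u, ψ, ψ', χ` -/
structure BG (a b d c : ℂ) : Prop where
  ta1 : Tri (aA1 a b) (aB1 a b)
  ta2 : Tri (aA2 a b c) (aB2 a b c)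
  tb1 : Tri (bA1 a b c) (bB1 a b c)
  tb2 : Tri (bA2 a b c) (bB2 a b c)
  ua1 : Tri (aA1 a (-d)) (aB1 a (-d))
  ua2 : Tri (aA2 a (-d) (-c)) (aB2 a (-d) (-c))
  ub1 : Tri (bA1 a (-d) (-c)) (bB1 a (-d) (-c))
  ub2 : Tri (bA2 a (-d) (-c)) (bB2 a (-d) (-c))
  r1 : log (cos (a + b)) + log (cos (a - b)) + log (cos (a + d)) +
    log (cos (a - d)) = 2 * log (sin a) + log (sin (a + c)) + log (sin (a - c))
  r2 : ups a (-d) (-c) = ups a b c + log (sin a) + log (sin (a - c)) - I * c -
    log (cos (a + b)) - log (cos (a - b))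
  r3 : log (cos (a + b)) + log (cos (a - b)) + log (cos (d + c)) +
    log (cos (d - c)) = 2 * log (cos b) + log (sin (a + c)) + log (sin (a - c))
  r4 : log (cos (a + d)) + log (cos (a - d)) + log (cos (b + c)) +
    log (cos (b - c)) = 2 * log (cos d) + log (sin (a + c)) + log (sin (a - c))
  sb : cos b ∈ Complex.slitPlane
  sd : cos d ∈ Complex.slitPlane
  sK : cos (b + c) ∈ Complex.slitPlane
  sE : cos (d + c) ∈ Complex.slitPlane
  sCp : cos (a + b) ∈ Complex.slitPlane
  sCm : cos (a - b) ∈ Complex.slitPlane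
  sDp : cos (a + d) ∈ Complex.slitPlane
  sDm : cos (a - d) ∈ Complex.slitPlane
  ssp : sin (a + c) ∈ Complex.slitPlane
  ssm : sin (a - c) ∈ Complex.slitPlane
  ssa : sin a ∈ Complex.slitPlane
  sU : uph a b c ∈ Complex.slitPlane
  sUt : uph a (-d) (-c) ∈ Complex.slitPlane
  q1 : log (cos (a - b) / cos (a + b)) = lgr a b
  q2 : log (cos (a - d) / cos (a + d)) = lgr a d
  q3 : log (sin (a + c) / sin (a - c)) = lcr a c

end Pool.Agent.Y482.Cz
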