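import Pool.Agent.Y482.Cz.Half
import Pool.Agent.Y482.Chi.Rel

/-!
# The neighbourhood of the base points
-/

set_option autoImplicit false

namespace Pool.Agent.Y482.Cz

open Filter
open Complex (exp log cos sin I)
open Pool.Agent.Y482.Chi hiding tri_a1 tri_a2 tri_b1 tri_b2
open scoped Real Topology ComplexConjugate

/-! ### The product relations -/

/-- the equation for `a` -/
def EQ (a b d c : ℂ) : Prop := cos (2 * a) * (1 + cos (2 * c) + cos (2 * b) + cos (2 * d)) =
    cos (2 * c) - cos (2 * b) * cos (2 * d)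

section
variable {a b d c : ℂ}

lemma eqp (h : EQ a b d c) :
    (2 * cos a ^ 2 - 1) * (2 * cos c ^ 2 + 2 * cos b ^ 2 + 2 * cos d ^ 2 - 2) =
    (2 * cos c ^ 2 - 1) - (2 * cos b ^ 2 - 1) * (2 * cos d ^ 2 - 1) := by
  unfold EQ at h
  rw [Complex.cos_two_mul, Complex.cos_two_mul, Complex.cos_two_mul, Complex.cos_two_mul] at h
  linear_combination h

lemma m1 (h : EQ a b d c) : cos (a + b) * cos (a - b) * (cos (a + d) * cos (a - d)) =
    sin a * sin a * (sin (a + c) * sin (a - c)) := by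
  rw [BX.pr1, BX.pr1, BX.pr2]
  have e := eqp h
  have e2 := Complex.sin_sq_add_cos_sq a
  linear_combination (1 / 4) * e - (cos c ^ 2 - cos a ^ 2) * e2

lemma m3 (h : EQ a b d c) : cos (a + b) * cos (a - b) * (cos (d + c) * cos (d - c)) =
    cos b * cos b * (sin (a + c) * sin (a - c)) := by
  rw [BX.pr1, BX.pr1, BX.pr2]
  have e := eqp h
  linear_combination (1 / 4) * e

lemma m4 (h : EQ a b d c) : cos (a + d) * cos (a - d) * (cos (b + c) * cos (b - c)) =
    cos d * cos d * (sin (a + c) * sin (a - c)) := by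
  rw [BX.pr1, BX.pr1, BX.pr2]
  have e := eqp h
  linear_combination (1 / 4) * e

lemma m2 (h : EQ a b d c) : uph a (-d) (-c) * (cos (a + b) * cos (a - b)) =
    uph a b c * (sin a * sin (a - c) * exp (-(I * c))) := by
  have e := eqp h
  have ea := Complex.sin_sq_add_cos_sq a
  have ec := Complex.sin_sq_add_cos_sq c
  have h2 : cos d ^ 2 * (cos b ^ 2 - sin a ^ 2) = sin a ^ 2 * (cos b ^ 2 - sin c ^ 2) := by
    have e1 : sin a ^ 2 = 1 - cos a ^ 2 := by linear_combination ea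
    have e2 : sin c ^ 2 = 1 - cos c ^ 2 := by linear_combination ec
    rw [e1, e2]
    linear_combination (1 / 4) * e
  have h4 : sin a * (cos (a - c) + sin (a - c) * I) - sin c = sin (a - c) * (cos a + sin a * I) := by
    rw [Complex.cos_sub, Complex.sin_sub]
    linear_combination (sin c) * ea
  have h5 : sin c * (cos (a - c) + sin (a - c) * I) - sin a = -(sin (a - c)) * (cos c - sin c * I) := by
    rw [Complex.cos_sub, Complex.sin_sub]
    linear_combination (sin a) * ec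
  have h6 : (cos c - sin c * I) * (cos (a + c) + sin (a + c) * I) = cos a + sin a * I := by
    rw [Complex.cos_add, Complex.sin_add]
    linear_combination (cos a + sin a * I) * ec -
      (sin c * (sin a * cos c + cos a * sin c)) * Complex.I_sq
  unfold uph
  rw [Complex.cos_neg, Complex.sin_neg, ← sub_eq_add_neg, BX.pr1, expI, expI, expnI]
  linear_combination (cos d ^ 2 * (cos (a - c) + sin (a - c) * I) - sin a * sin c) * ea +
    (cos (a - c) + sin (a - c) * I) * h2 + (sin a * cos b ^ 2) * h4 - (sin a ^ 2 * sin c) * h5 -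
    (sin a * cos b ^ 2 * sin (a - c)) * h6

end

/-- the argument of `(1 + s) / (1 - s)` -/
lemma lc_base {a c : ℂ} (hc : RG c) (h : AG a (cos c)) :
    0 ≤ (log (1 + sin c)).im - (log (1 - sin c)).im ∧
      (log (1 + sin c)).im - (log (1 - sin c)).im < π := by
  have g := hc.tg
  have l := lg_base hc h
  have hpi := Real.pi_pos
  have l1 := l.lp
  have l2 := l.lm
  have pre : (1 + sin c).re = 1 + (sin c).re := by simp
  have pim : (1 + sin c).im = (sin c).im := by simp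
  have mre : (1 - sin c).re = 1 - (sin c).re := by simp
  have mim : (1 - sin c).im = -(sin c).im := by simp
  refine ⟨by linarith, ?_⟩
  rcases g.s2.lt_or_eq with h0 | h0
  · obtain ⟨p1, p2⟩ := arg_parts (z := 1 + sin c)
    obtain ⟨p3, p4⟩ := arg_parts (z := 1 - sin c)
    rw [pre] at p1
    rw [pim] at p2
    rw [mre] at p3
    rw [mim] at p4
    have e : ‖1 + sin c‖ * ‖1 - sin c‖ *
        Real.sin ((log (1 + sin c)).im - (log (1 - sin c)).im) = 2 * (sin c).im := by
      rw [Real.sin_sub]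
      linear_combination (‖1 - sin c‖ * Real.cos (log (1 - sin c)).im) * p2 + (sin c).im * p3 -
        (‖1 - sin c‖ * Real.sin (log (1 - sin c)).im) * p1 - (1 + (sin c).re) * p4
    by_contra hcon
    rw [not_lt] at hcon
    have s0 := Real.sin_nonneg_of_nonneg_of_le_pi
      (x := (log (1 + sin c)).im - (log (1 - sin c)).im - π) (by linarith) (by linarith)
    rw [Real.sin_sub_pi] at s0
    have n1 := norm_nonneg (1 + sin c)
    have n2 := norm_nonneg (1 - sin c)
    have := mul_nonneg (mul_nonneg n1 n2) s0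
    linarith
  · have q1 : (log (1 + sin c)).im ≤ 0 :=
      arg_nonpos (by rw [pre]; linarith [g.s4 h0.symm]) (by rw [pim, ← h0])
    have q2 : 0 ≤ (log (1 - sin c)).im := arg_nonneg (by rw [mim, ← h0, neg_zero])
    linarith

/-! ### Good points -/

/-- the good points -/
structure Gd (p : ℂ × ℂ × ℂ) : Prop where
  bg : BG (acf (Rf p.1 p.2.1 p.2.2) / 2) p.1 p.2.1 p.2.2
  den : 1 + cos (2 * p.2.2) + cos (2 * p.1) + cos (2 * p.2.1) ≠ 0
  sr : SR (Rf p.1 p.2.1 p.2.2)
  re : 0 < (acf (Rf p.1 p.2.1 p.2.2)).re ∧ (acf (Rf p.1 p.2.1 p.2.2)).re < π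
  m1 : p.1 ∈ Metric.ball (0 : ℂ) (π / 2)
  m2 : p.1 + p.2.2 ∈ Metric.ball (0 : ℂ) (π / 2)
  m3 : p.2.1 ∈ Metric.ball (0 : ℂ) (π / 2)
  m4 : p.2.1 + p.2.2 ∈ Metric.ball (0 : ℂ) (π / 2)

theorem ev_good {c : ℂ} (hc : RG c) (hn : ‖c‖ < π / 2) :
    ∀ᶠ p in 𝓝 ((0 : ℂ), (0 : ℂ), c), Gd p := by
  obtain ⟨r1, r2⟩ := rf0 c
  have g := hc.tg
  obtain ⟨u0, hSR, re0, re1⟩ := base_R g
  obtain ⟨x, hx⟩ : ∃ x : ℂ × ℂ × ℂ, x = ((0 : ℂ), (0 : ℂ), c) := ⟨_, rfl⟩
  have x1 : x.1 = 0 := by rw [hx]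
  have x2 : x.2.1 = 0 := by rw [hx]
  have x3 : x.2.2 = c := by rw [hx]
  rw [← hx]
  have hden0 : 1 + cos (2 * x.2.2) + cos (2 * x.1) + cos (2 * x.2.1) ≠ 0 := by
    rw [x1, x2, x3, r2]
    exact mul_ne_zero two_ne_zero u0
  have hRc : ContinuousAt (fun p : ℂ × ℂ × ℂ => Rf p.1 p.2.1 p.2.2) x := by
    unfold Rf
    exact ContinuousAt.div (by fun_prop) (by fun_prop) hden0
  have hR0 : Rf x.1 x.2.1 x.2.2 = (cos c ^ 2 - 1) / (1 + cos c ^ 2) := by rw [x1, x2, x3, r1]
  rw [← hR0] at hSR re0 re1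
  have hac : ContinuousAt (fun p : ℂ × ℂ × ℂ => acf (Rf p.1 p.2.1 p.2.2)) x :=
    ContinuousAt.comp (f := fun p : ℂ × ℂ × ℂ => Rf p.1 p.2.1 p.2.2) (acf_diff hSR).continuousAt
      hRc
  obtain ⟨A, hA⟩ : ∃ A : ℂ × ℂ × ℂ → ℂ, A = fun p => acf (Rf p.1 p.2.1 p.2.2) / 2 := ⟨_, rfl⟩
  have hAc : ContinuousAt A x := by rw [hA]; exact hac.div_const 2
  obtain ⟨a, ha⟩ : ∃ a : ℂ, a = acf ((cos c ^ 2 - 1) / (1 + cos c ^ 2)) / 2 := ⟨_, rfl⟩
  have hA0 : A x = a := by
    rw [hA, ha]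
    simp only
    rw [hR0]
  have hAG := base_a g ha
  have l := lg_base hc hAG
  obtain ⟨lc0, lc1⟩ := lc_base hc hAG
  have hpi := Real.pi_pos
  have nc : cos a ≠ 0 := ne_of_re hAG.r4
  have nS : sin a ≠ 0 := ne_of_re hAG.r1
  have nC : cos c ≠ 0 := ne_of_re g.c1
  have cb : ContinuousAt (fun p : ℂ × ℂ × ℂ => p.1) x := by fun_prop
  have cd : ContinuousAt (fun p : ℂ × ℂ × ℂ => p.2.1) x := by fun_prop
  have cc : ContinuousAt (fun p : ℂ × ℂ × ℂ => p.2.2) x := by fun_prop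
  have H1 : HB (A x) x.1 x.2.2 := by rw [hA0, x1, x3]; exact hb_p hc hAG
  have H2 : HB (A x) (-x.2.1) (-x.2.2) := by rw [hA0, x2, x3, neg_zero]; exact hb_m hc hAG
  have v1 := ev_HB hAc cb cc H1
  have v2 : ∀ᶠ p : ℂ × ℂ × ℂ in 𝓝 x, HB (A p) (-p.2.1) (-p.2.2) :=
    ev_HB hAc cd.neg cc.neg H2
  -- the logarithms
  have kc : ∀ {f : ℂ × ℂ × ℂ → ℂ}, ContinuousAt f x → ContinuousAt (fun p => cos (f p)) x :=
    fun hf => Complex.continuous_cos.continuousAt.comp hf
  have ks : ∀ {f : ℂ × ℂ × ℂ → ℂ}, ContinuousAt f x → ContinuousAt (fun p => sin (f p)) x :=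
    fun hf => Complex.continuous_sin.continuousAt.comp hf
  have sCp := H1.sCp
  have sCm := H1.sCm
  have sDm := H2.sCp
  have sDp := H2.sCm
  rw [← sub_eq_add_neg] at sDm
  rw [sub_neg_eq_add] at sDp
  have ssp := H1.ssp
  have ssm := H2.ssp
  rw [← sub_eq_add_neg] at ssm
  have ssa := H1.ssa
  have sb := H1.sb
  have sd := H2.sb
  rw [Complex.cos_neg] at sd
  have sC : cos c ∈ Complex.slitPlane := sp_of_re g.c1
  have sK : cos (x.1 + x.2.2) ∈ Complex.slitPlane := H1.sK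
  have sK' : cos (x.1 - x.2.2) ∈ Complex.slitPlane := by
    rw [x1, x3, zero_sub, Complex.cos_neg]; exact sC
  have sE : cos (x.2.1 + x.2.2) ∈ Complex.slitPlane := by
    rw [x2, x3, zero_add]; exact sC
  have sE' : cos (x.2.1 - x.2.2) ∈ Complex.slitPlane := by
    rw [x2, x3, zero_sub, Complex.cos_neg]; exact sC
  have cxCp : ContinuousAt (fun p : ℂ × ℂ × ℂ => cos (A p + p.1)) x := kc (hAc.add cb)
  have lCp : ContinuousAt (fun p : ℂ × ℂ × ℂ => log (cos (A p + p.1))) x := cxCp.clog sCp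
  have cxCm : ContinuousAt (fun p : ℂ × ℂ × ℂ => cos (A p - p.1)) x := kc (hAc.sub cb)
  have lCm : ContinuousAt (fun p : ℂ × ℂ × ℂ => log (cos (A p - p.1))) x := cxCm.clog sCm
  have cxDp : ContinuousAt (fun p : ℂ × ℂ × ℂ => cos (A p + p.2.1)) x := kc (hAc.add cd)
  have lDp : ContinuousAt (fun p : ℂ × ℂ × ℂ => log (cos (A p + p.2.1))) x := cxDp.clog sDp
  have cxDm : ContinuousAt (fun p : ℂ × ℂ × ℂ => cos (A p - p.2.1)) x := kc (hAc.sub cd)
  have lDm : ContinuousAt (fun p : ℂ × ℂ × ℂ => log (cos (A p - p.2.1))) x := cxDm.clog sDm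
  have cxsp : ContinuousAt (fun p : ℂ × ℂ × ℂ => sin (A p + p.2.2)) x := ks (hAc.add cc)
  have lsp : ContinuousAt (fun p : ℂ × ℂ × ℂ => log (sin (A p + p.2.2))) x := cxsp.clog ssp
  have cxsm : ContinuousAt (fun p : ℂ × ℂ × ℂ => sin (A p - p.2.2)) x := ks (hAc.sub cc)
  have lsm : ContinuousAt (fun p : ℂ × ℂ × ℂ => log (sin (A p - p.2.2))) x := cxsm.clog ssm
  have cxsa : ContinuousAt (fun p : ℂ × ℂ × ℂ => sin (A p)) x := ks hAc
  have lsa : ContinuousAt (fun p : ℂ × ℂ × ℂ => log (sin (A p))) x := cxsa.clog ssa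
  have cxb : ContinuousAt (fun p : ℂ × ℂ × ℂ => cos p.1) x := kc cb
  have lb : ContinuousAt (fun p : ℂ × ℂ × ℂ => log (cos p.1)) x := cxb.clog sb
  have cxd : ContinuousAt (fun p : ℂ × ℂ × ℂ => cos p.2.1) x := kc cd
  have ld : ContinuousAt (fun p : ℂ × ℂ × ℂ => log (cos p.2.1)) x := cxd.clog sd
  have cxK : ContinuousAt (fun p : ℂ × ℂ × ℂ => cos (p.1 + p.2.2)) x := kc (cb.add cc)
  have lK : ContinuousAt (fun p : ℂ × ℂ × ℂ => log (cos (p.1 + p.2.2))) x := cxK.clog sK
  have cxK' : ContinuousAt (fun p : ℂ × ℂ × ℂ => cos (p.1 - p.2.2)) x := kc (cb.sub cc)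
  have lK' : ContinuousAt (fun p : ℂ × ℂ × ℂ => log (cos (p.1 - p.2.2))) x := cxK'.clog sK'
  have cxE : ContinuousAt (fun p : ℂ × ℂ × ℂ => cos (p.2.1 + p.2.2)) x := kc (cd.add cc)
  have lE : ContinuousAt (fun p : ℂ × ℂ × ℂ => log (cos (p.2.1 + p.2.2))) x := cxE.clog sE
  have cxE' : ContinuousAt (fun p : ℂ × ℂ × ℂ => cos (p.2.1 - p.2.2)) x := kc (cd.sub cc)
  have lE' : ContinuousAt (fun p : ℂ × ℂ × ℂ => log (cos (p.2.1 - p.2.2))) x := cxE'.clog sE'
  have cU : ContinuousAt (fun p => uph (A p) p.1 p.2.2) x := by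
    have e1 : ContinuousAt (fun p : ℂ × ℂ × ℂ => exp (I * (A p + p.2.2))) x :=
      Complex.continuous_exp.continuousAt.comp ((hAc.add cc).const_mul I)
    exact (((kc cb).pow 2).mul e1).add ((ks hAc).mul (ks cc))
  have cUt : ContinuousAt (fun p => uph (A p) (-p.2.1) (-p.2.2)) x := by
    have e1 : ContinuousAt (fun p : ℂ × ℂ × ℂ => exp (I * (A p + -p.2.2))) x :=
      Complex.continuous_exp.continuousAt.comp ((hAc.add cc.neg).const_mul I)
    exact (((kc cd.neg).pow 2).mul e1).add ((ks hAc).mul (ks cc.neg))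
  have lU : ContinuousAt (fun p => ups (A p) p.1 p.2.2) x := cU.clog H1.sU
  have lUt : ContinuousAt (fun p => ups (A p) (-p.2.1) (-p.2.2)) x := cUt.clog H2.sU
  -- the equation
  have f6 : ∀ᶠ p : ℂ × ℂ × ℂ in 𝓝 x, 1 + cos (2 * p.2.2) + cos (2 * p.1) + cos (2 * p.2.1) ≠ 0 :=
    ContinuousAt.eventually_ne (by fun_prop) hden0
  have f7 : ∀ᶠ p : ℂ × ℂ × ℂ in 𝓝 x, SR (Rf p.1 p.2.1 p.2.2) := by
    have e1 : ContinuousAt (fun p : ℂ × ℂ × ℂ => 1 - Rf p.1 p.2.1 p.2.2 ^ 2) x :=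
      continuousAt_const.sub (hRc.pow 2)
    have e2 : ContinuousAt (fun p : ℂ × ℂ × ℂ => I * Rf p.1 p.2.1 p.2.2 +
        exp (log (1 - Rf p.1 p.2.1 p.2.2 ^ 2) / 2)) x :=
      (hRc.const_mul I).add (Complex.continuous_exp.continuousAt.comp
        ((e1.clog hSR.1).div_const 2))
    filter_upwards [ev_sp e1 hSR.1, ev_sp e2 hSR.2] with p h1 h2 using ⟨h1, h2⟩
  have fE : ∀ᶠ p : ℂ × ℂ × ℂ in 𝓝 x, EQ (A p) p.1 p.2.1 p.2.2 := by
    filter_upwards [f6, f7] with p h1 h2
    have e2 : cos (2 * A p) = Rf p.1 p.2.1 p.2.2 := by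
      rw [hA]
      simp only
      rw [mul_div_cancel₀ _ two_ne_zero, acf_cos' h2]
    unfold EQ
    rw [e2]
    unfold Rf
    rw [div_mul_cancel₀ _ h1]
  have nz : ∀ {f : ℂ × ℂ × ℂ → ℂ}, ContinuousAt f x → f x ∈ Complex.slitPlane →
      ∀ᶠ p in 𝓝 x, f p ≠ 0 := fun hf h => by
    filter_upwards [ev_sp hf h] with p h1 using Complex.slitPlane_ne_zero h1
  have zCp := nz cxCp sCp
  have zCm := nz cxCm sCm
  have zDp := nz cxDp sDp
  have zDm := nz cxDm sDm
  have zsp := nz cxsp ssp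
  have zsm := nz cxsm ssm
  have zsa := nz cxsa ssa
  have zb := nz cxb sb
  have zd := nz cxd sd
  have zK := nz cxK sK
  have zK' := nz cxK' sK'
  have zE := nz cxE sE
  have zE' := nz cxE' sE'
  have zU := nz cU H1.sU
  have zUt := nz cUt H2.sU
  -- the relations
  have R1 := ev_eq (L := fun p => log (cos (A p + p.1)) + log (cos (A p - p.1)) +
      log (cos (A p + p.2.1)) + log (cos (A p - p.2.1)))
    (R := fun p => 2 * log (sin (A p)) + log (sin (A p + p.2.2)) + log (sin (A p - p.2.2)))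
    (((lCp.add lCm).add lDp).add lDm) (((lsa.const_mul 2).add lsp).add lsm) (by
      simp only [hA0, x1, x2, x3, add_zero, sub_zero]
      linear_combination 2 * l.e1 - l.e2 - l.e3 - l.e4) (by
    filter_upwards [fE, zCp, zCm, zDp, zDm, zsp, zsm, zsa] with p h h1 h2 h3 h4 h5 h6 h7
    rw [show 2 * log (sin (A p)) = log (sin (A p)) + log (sin (A p)) by ring]
    simp only [Complex.exp_add]
    rw [Complex.exp_log h1, Complex.exp_log h2, Complex.exp_log h3, Complex.exp_log h4,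
      Complex.exp_log h5, Complex.exp_log h6, Complex.exp_log h7]
    linear_combination m1 h)
  have R3 := ev_eq (L := fun p => log (cos (A p + p.1)) + log (cos (A p - p.1)) +
      log (cos (p.2.1 + p.2.2)) + log (cos (p.2.1 - p.2.2)))
    (R := fun p => 2 * log (cos p.1) + log (sin (A p + p.2.2)) + log (sin (A p - p.2.2)))
    (((lCp.add lCm).add lE).add lE') (((lb.const_mul 2).add lsp).add lsm) (by
      simp only [hA0, x1, x2, x3, add_zero, sub_zero, zero_add, zero_sub, Complex.cos_neg,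
        Complex.cos_zero, Complex.log_one, mul_zero]
      linear_combination -l.e2 - l.e3 - l.e4) (by
    filter_upwards [fE, zCp, zCm, zE, zE', zsp, zsm, zb] with p h h1 h2 h3 h4 h5 h6 h7
    rw [show 2 * log (cos p.1) = log (cos p.1) + log (cos p.1) by ring]
    simp only [Complex.exp_add]
    rw [Complex.exp_log h1, Complex.exp_log h2, Complex.exp_log h3, Complex.exp_log h4,
      Complex.exp_log h5, Complex.exp_log h6, Complex.exp_log h7]
    linear_combination m3 h)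
  have R4 := ev_eq (L := fun p => log (cos (A p + p.2.1)) + log (cos (A p - p.2.1)) +
      log (cos (p.1 + p.2.2)) + log (cos (p.1 - p.2.2)))
    (R := fun p => 2 * log (cos p.2.1) + log (sin (A p + p.2.2)) + log (sin (A p - p.2.2)))
    (((lDp.add lDm).add lK).add lK') (((ld.const_mul 2).add lsp).add lsm) (by
      simp only [hA0, x1, x2, x3, add_zero, sub_zero, zero_add, zero_sub, Complex.cos_neg,
        Complex.cos_zero, Complex.log_one, mul_zero]
      linear_combination -l.e2 - l.e3 - l.e4) (by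
    filter_upwards [fE, zDp, zDm, zK, zK', zsp, zsm, zd] with p h h1 h2 h3 h4 h5 h6 h7
    rw [show 2 * log (cos p.2.1) = log (cos p.2.1) + log (cos p.2.1) by ring]
    simp only [Complex.exp_add]
    rw [Complex.exp_log h1, Complex.exp_log h2, Complex.exp_log h3, Complex.exp_log h4,
      Complex.exp_log h5, Complex.exp_log h6, Complex.exp_log h7]
    linear_combination m4 h)
  have key : log (cos c) + log (cos c + I * (1 - sin c)) =
      log (cos c + I * (1 + sin c)) + log (1 - sin c) + -(I * c) := by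
    apply exp_inj'
    · rw [Complex.exp_add, Complex.exp_add, Complex.exp_add, Complex.exp_log nC,
        Complex.exp_log l.np', Complex.exp_log l.nm', Complex.exp_log l.nm, expnI]
      linear_combination (sin c) * g.eq + (sin c * (1 - sin c ^ 2)) * Complex.I_sq
    · have hi : (-(I * c)).im = -c.re := by simp
      rw [Complex.add_im, Complex.add_im, Complex.add_im, hi, abs_lt]
      have h1 := l.dp
      have h2 := l.dm
      have h3 := l.w0
      have h4 := l.w1
      have h5 := l.lm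
      have h6 := hc.x0
      have h7 := hc.x1
      constructor <;> linarith
  have R2 := ev_eq (L := fun p => ups (A p) (-p.2.1) (-p.2.2))
    (R := fun p => ups (A p) p.1 p.2.2 + log (sin (A p)) + log (sin (A p - p.2.2)) - I * p.2.2 -
      log (cos (A p + p.1)) - log (cos (A p - p.1))) lUt (((((lU.add lsa).add lsm).sub (cc.const_mul I)).sub lCp).sub lCm) (by
      simp only [hA0, x1, x2, x3, add_zero, sub_zero, neg_zero, Chi.ups]
      linear_combination l.e6 - l.e5 - l.e3 + l.e1 + key) (by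
    filter_upwards [fE, zCp, zCm, zsm, zsa, zU, zUt] with p h h1 h2 h3 h4 h5 h6
    unfold Chi.ups
    rw [show log (uph (A p) p.1 p.2.2) + log (sin (A p)) + log (sin (A p - p.2.2)) - I * p.2.2 -
      log (cos (A p + p.1)) - log (cos (A p - p.1)) =
      log (uph (A p) p.1 p.2.2) + log (sin (A p)) + log (sin (A p - p.2.2)) + -(I * p.2.2) -
      log (cos (A p + p.1)) - log (cos (A p - p.1)) by ring, Complex.exp_sub, Complex.exp_sub,
      Complex.exp_add, Complex.exp_add, Complex.exp_add,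
      Complex.exp_log h1, Complex.exp_log h2, Complex.exp_log h3, Complex.exp_log h4,
      Complex.exp_log h5, Complex.exp_log h6, eq_div_iff h2, eq_div_iff h1]
    linear_combination m2 h)
  have Q1 := ev_eq (L := fun p => log (cos (A p - p.1) / cos (A p + p.1)))
    (R := fun p => lgr (A p) p.1) ((cxCm.div cxCp (Complex.slitPlane_ne_zero sCp)).clog (by
        simp only [Pi.div_apply, hA0, x1, add_zero, sub_zero]
        rw [div_self nc]
        exact sp_of_re (by simp))) (lCm.sub lCp) (by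
      simp only [lgr, hA0, x1, add_zero, sub_zero]
      rw [div_self nc, Complex.log_one, sub_self]) (by
    filter_upwards [zCp, zCm] with p h1 h2
    simp only [lgr]
    rw [Complex.exp_sub, Complex.exp_log h1, Complex.exp_log h2,
      Complex.exp_log (div_ne_zero h2 h1)])
  have Q2 := ev_eq (L := fun p => log (cos (A p - p.2.1) / cos (A p + p.2.1)))
    (R := fun p => lgr (A p) p.2.1) ((cxDm.div cxDp (Complex.slitPlane_ne_zero sDp)).clog (by
        simp only [Pi.div_apply, hA0, x2, add_zero, sub_zero]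
        rw [div_self nc]
        exact sp_of_re (by simp))) (lDm.sub lDp) (by
      simp only [lgr, hA0, x2, add_zero, sub_zero]
      rw [div_self nc, Complex.log_one, sub_self]) (by
    filter_upwards [zDp, zDm] with p h1 h2
    simp only [lgr]
    rw [Complex.exp_sub, Complex.exp_log h1, Complex.exp_log h2,
      Complex.exp_log (div_ne_zero h2 h1)])
  have hq : sin (a + c) / sin (a - c) = (1 + sin c) / (1 - sin c) := by
    rw [l.v2, l.v3, mul_div_mul_left _ _ nc]
  have hl : log ((1 + sin c) / (1 - sin c)) = log (1 + sin c) - log (1 - sin c) := by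
    have e : (1 + sin c) / (1 - sin c) = exp (log (1 + sin c) - log (1 - sin c)) := by
      rw [Complex.exp_sub, Complex.exp_log l.np, Complex.exp_log l.nm]
    rw [e, Complex.log_exp]
    · rw [Complex.sub_im]; linarith
    · rw [Complex.sub_im]; exact lc1.le
  have Q3 := ev_eq (L := fun p => log (sin (A p + p.2.2) / sin (A p - p.2.2)))
    (R := fun p => lcr (A p) p.2.2) ((cxsp.div cxsm (Complex.slitPlane_ne_zero ssm)).clog (by
        simp only [Pi.div_apply, hA0, x3]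
        rw [hq]
        refine sp_of_im (div_ne_zero l.np l.nm) ?_
        rw [hl, Complex.sub_im]
        exact lc1)) (lsp.sub lsm) (by
      simp only [lcr, hA0, x3]
      rw [hq, hl, l.e2, l.e3]
      ring) (by
    filter_upwards [zsp, zsm] with p h1 h2
    simp only [lcr]
    rw [Complex.exp_sub, Complex.exp_log h1, Complex.exp_log h2,
      Complex.exp_log (div_ne_zero h1 h2)])
  have e1 := continuousAt_const.eventually_lt (cre hac) re0
  have e2 := (cre hac).eventually_lt continuousAt_const re1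
  have b0 : (0 : ℂ) ∈ Metric.ball (0 : ℂ) (π / 2) := Metric.mem_ball_self (by positivity)
  have b1 : c ∈ Metric.ball (0 : ℂ) (π / 2) := by rwa [mem_ball_zero_iff]
  have B1 : ∀ᶠ p : ℂ × ℂ × ℂ in 𝓝 x, p.1 ∈ Metric.ball (0 : ℂ) (π / 2) :=
    cb.eventually (Metric.isOpen_ball.mem_nhds (show x.1 ∈ _ by rw [x1]; exact b0))
  have B2 : ∀ᶠ p : ℂ × ℂ × ℂ in 𝓝 x, p.1 + p.2.2 ∈ Metric.ball (0 : ℂ) (π / 2) :=
    (cb.add cc).eventually (Metric.isOpen_ball.mem_nhds
    (show x.1 + x.2.2 ∈ _ by rw [x1, x3, zero_add]; exact b1))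
  have B3 : ∀ᶠ p : ℂ × ℂ × ℂ in 𝓝 x, p.2.1 ∈ Metric.ball (0 : ℂ) (π / 2) :=
    cd.eventually (Metric.isOpen_ball.mem_nhds (show x.2.1 ∈ _ by rw [x2]; exact b0))
  have B4 : ∀ᶠ p : ℂ × ℂ × ℂ in 𝓝 x, p.2.1 + p.2.2 ∈ Metric.ball (0 : ℂ) (π / 2) :=
    (cd.add cc).eventually (Metric.isOpen_ball.mem_nhds
    (show x.2.1 + x.2.2 ∈ _ by rw [x2, x3, zero_add]; exact b1))
  filter_upwards [v1, v2, f6, f7, R1, R2, R3, R4, Q1, Q2, Q3, e1, e2, B1, B2, B3, B4] with p v1 v2
    f6 f7 R1 R2 R3 R4 Q1 Q2 Q3 e1 e2 B1 B2 B3 B4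
  have eA : acf (Rf p.1 p.2.1 p.2.2) / 2 = A p := by rw [hA]
  refine ⟨?_, f6, f7, ⟨e1, e2⟩, B1, B2, B3, B4⟩
  rw [eA]
  have w1 := v2.sb
  have w2 := v2.sK
  have w3 := v2.sCp
  have w4 := v2.sCm
  have w5 := v2.ssp
  have ecc : cos (-p.2.1 + -p.2.2) = cos (p.2.1 + p.2.2) := by
    rw [← Complex.cos_neg]; congr 1; ring
  rw [Complex.cos_neg] at w1
  rw [ecc] at w2
  rw [← sub_eq_add_neg] at w3 w5
  rw [sub_neg_eq_add] at w4
  exact ⟨v1.t1, v1.t2, v1.t3, v1.t4, v2.t1, v2.t2, v2.t3, v2.t4, R1, R2, R3, R4, v1.sb, w1, v1.sK,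
    w2, v1.sCp, v1.sCm, w4, w3, v1.ssp, w5, v1.ssa, v1.sU, v2.sU, Q1, Q2, Q3⟩

end Pool.Agent.Y482.Cz
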