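import Pool.Agent.Y482.Cz.Ring
import Pool.Agent.Y482.Cz.Good
import Pool.Agent.Y482.Chi.Fin
import Pool.Agent.Y472.G.Defs

/-!
# The volume of a block in terms of the exponent
-/

set_option autoImplicit false

namespace Pool.Agent.Y482.Cz

open Filter
open Complex (exp log cos sin I)
open Pool.Agent.W711.HT
open Pool.Agent.Y472 (SDZ S_S0P s0 gh Rz Zr)
open Pool.Agent.Y482.Chi hiding tri_a1 tri_a2 tri_b1 tri_b2 blkAng blkCr blk_lf dvol crit_ang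
  crit_vol crit_max
open scoped Real Topology

/-- a primitive of `log cos` -/
lemma ex_prim : ∃ Λ : ℂ → ℂ, ∀ z ∈ Metric.ball (0 : ℂ) (π / 2), HasDerivAt Λ (log (cos z)) z := by
  have hd : DifferentiableOn ℂ (fun z => log (cos z)) (Metric.ball (0 : ℂ) (π / 2)) := by
    intro z hz
    rw [mem_ball_zero_iff] at hz
    have h1 := (Complex.abs_re_le_norm z).trans_lt hz
    rw [abs_lt] at h1
    have h2 : 0 < (cos z).re := by
      rw [(cos_parts z).1]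
      exact mul_pos (Real.cos_pos_of_mem_Ioo ⟨by linarith, by linarith⟩) (Real.cosh_pos _)
    exact (Complex.differentiableAt_cos.clog (sp_of_re h2)).differentiableWithinAt
  obtain ⟨Λ, hΛ⟩ := hd.isExactOn_ball
  exact ⟨Λ, hΛ⟩

/-- `a` along a curve -/
lemma dacf {bf df cf : ℝ → ℂ} {b' d' c' : ℂ} {s : ℝ} (hb : HasDerivAt bf b' s)
    (hd : HasDerivAt df d' s) (hc : HasDerivAt cf c' s) (h : Gd (bf s, df s, cf s)) :
    ∃ a', HasDerivAt (fun t => acf (Rf (bf t) (df t) (cf t)) / 2) a' s := by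
  have c1 := hcos (hc.const_mul 2)
  have c2 := hcos (hb.const_mul 2)
  have c3 := hcos (hd.const_mul 2)
  have hR : HasDerivAt (fun t : ℝ => Rf (bf t) (df t) (cf t)) _ s :=
    (c1.sub (c2.mul c3)).div (((c1.const_add 1).add c2).add c3) h.den
  have hp := (acf_diff h.sr).hasDerivAt.comp s hR
  exact ⟨_, hp.div_const 2⟩

/-- the volume of a block and the corrections -/
noncomputable def vc (Λ : ℂ → ℂ) (a b d c : ℂ) : ℝ :=
  bv a b d c + 2 * (b.im * (lgr a b).im + d.im * (lgr a d).im + c.im * (lcr a c).im) -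
    (EL Λ b - EL Λ (b + c) - (EL Λ d - EL Λ (d + c)))

theorem leg {Λ : ℂ → ℂ} (hΛ : ∀ z ∈ Metric.ball (0 : ℂ) (π / 2), HasDerivAt Λ (log (cos z)) z)
    {bf df cf : ℝ → ℂ} {b' d' c' : ℂ} {s : ℝ} (hb : HasDerivAt bf b' s)
    (hd : HasDerivAt df d' s) (hc : HasDerivAt cf c' s)
    (h : ∀ᶠ t : ℝ in 𝓝 s, Gd (bf t, df t, cf t)) :
    HasDerivAt (fun t => vc Λ (acf (Rf (bf t) (df t) (cf t)) / 2) (bf t) (df t) (cf t))
      (-2 * (lgr (acf (Rf (bf s) (df s) (cf s)) / 2) (bf s) * b' +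
        lgr (acf (Rf (bf s) (df s) (cf s)) / 2) (df s) * d' +
        lcr (acf (Rf (bf s) (df s) (cf s)) / 2) (cf s) * c').re) s := by
  have h0 := h.self_of_nhds
  obtain ⟨a', ha⟩ := dacf hb hd hc h0
  exact dvol hΛ ha hb hd hc (by filter_upwards [h] with t ht using ht.bg) h0.m1 h0.m2 h0.m3 h0.m4

/-- continuity of good points along curves -/
lemma ev_gd {bf df cf : ℝ → ℂ} {b' d' c' : ℂ} {s : ℝ} (hb : HasDerivAt bf b' s)
    (hd : HasDerivAt df d' s) (hc : HasDerivAt cf c' s)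
    (h : (bf s, df s, cf s) ∈ interior {p | Gd p}) :
    ∀ᶠ t : ℝ in 𝓝 s, Gd (bf t, df t, cf t) := by
  have hcont : ContinuousAt (fun t : ℝ => (bf t, df t, cf t)) s :=
    hb.continuousAt.prodMk (hd.continuousAt.prodMk hc.continuousAt)
  filter_upwards [hcont.preimage_mem_nhds (isOpen_interior.mem_nhds h)] with t ht
  exact interior_subset (s := {p | Gd p}) ht

lemma const01 {F : ℝ → ℝ} (h : ∀ s ∈ Set.Icc (0 : ℝ) 1, HasDerivAt F 0 s) : F 1 = F 0 :=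
  constant_of_has_deriv_right_zero (f := F) (a := 0) (b := 1)
    (fun s hs => (h s hs).continuousAt.continuousWithinAt)
    (fun s hs => (h s ⟨hs.1, hs.2.le⟩).hasDerivWithinAt) 1 ⟨zero_le_one, le_rfl⟩

/-! ### The volume at the origin -/

lemma acf00 : acf (Rf 0 0 0) / 2 = (π : ℂ) / 4 := by
  have h : Rf 0 0 0 = 0 := by unfold Rf; simp
  rw [h]
  unfold acf
  rw [show (1 : ℂ) - 0 ^ 2 = 1 by ring, Complex.log_one, zero_div, Complex.exp_zero, mul_zero,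
    zero_add, Complex.log_one]
  ring

lemma bv00 : bv ((π : ℂ) / 4) 0 0 0 = 4 * π * bet := by
  have hpi := Real.pi_pos
  have h1 : cos ((π : ℂ) / 4) = ((√2 / 2 : ℝ) : ℂ) := by
    rw [← Real.cos_pi_div_four]; push_cast; rfl
  have h2 : sin ((π : ℂ) / 4) = ((√2 / 2 : ℝ) : ℂ) := by
    rw [← Real.sin_pi_div_four]; push_cast; rfl
  have l0 : (log ((√2 / 2 : ℝ) : ℂ)).im = 0 := by
    rw [← Complex.ofReal_log (by positivity), Complex.ofReal_im]
  have lc : (log (cos ((π : ℂ) / 4))).im = 0 := by rw [h1, l0]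
  have ls : (log (sin ((π : ℂ) / 4))).im = 0 := by rw [h2, l0]
  have hu : ups ((π : ℂ) / 4) 0 0 = I * (π / 4) := by
    have e : uph ((π : ℂ) / 4) 0 0 = exp (I * (π / 4)) := by
      unfold uph
      simp
    unfold Chi.ups
    rw [e, Complex.log_exp]
    · rw [im_I_mul, show ((π : ℂ) / 4) = ((π / 4 : ℝ) : ℂ) by push_cast; ring, Complex.ofReal_re]
      linarith
    · rw [im_I_mul, show ((π : ℂ) / 4) = ((π / 4 : ℝ) : ℂ) by push_cast; ring, Complex.ofReal_re]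
      linarith
  have q1 : ((π : ℂ) / 4).re = π / 4 := by
    rw [show ((π : ℂ) / 4) = ((π / 4 : ℝ) : ℂ) by push_cast; ring, Complex.ofReal_re]
  have a1 : (aA1 ((π : ℂ) / 4) 0).im = π / 4 := by
    unfold aA1
    rw [add_zero, Complex.cos_zero, Complex.log_one, zero_add, Complex.sub_im, im_I_mul, lc, q1,
      sub_zero]
  have b1 : (aB1 ((π : ℂ) / 4) 0).im = π / 2 := by
    unfold aB1
    rw [add_zero, mul_zero, add_zero, Complex.sub_im, Complex.add_im, im_I_mul, lc, ls, half_re]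
    ring
  have a2 : (aA2 ((π : ℂ) / 4) 0 0).im = π / 4 := by
    unfold aA2
    rw [add_zero, mul_zero, add_zero, add_zero, Complex.cos_zero, Complex.log_one, sub_zero,
      Complex.sub_im, Complex.add_im, im_I_mul, im_I_mul, ls, half_re, q1]
    ring
  have b2 : (aB2 ((π : ℂ) / 4) 0 0).im = π / 4 := by
    unfold aB2
    rw [sub_zero, mul_zero, add_zero, add_zero, Complex.cos_zero, Complex.log_one, zero_add,
      Complex.sub_im, im_I_mul, lc, q1, sub_zero]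
  have a3 : (bA1 ((π : ℂ) / 4) 0 0).im = π / 4 := by
    unfold bA1
    rw [hu, add_zero, add_zero, Complex.cos_zero, Complex.log_one, sub_zero, Complex.sub_im,
      im_I_mul, lc, q1, sub_zero]
  have b3 : (bB1 ((π : ℂ) / 4) 0 0).im = π / 2 := by
    unfold bB1
    rw [add_zero, add_zero, mul_zero, add_zero, Complex.cos_zero, Complex.log_one,
      sub_zero, add_zero, Complex.sub_im, Complex.add_im, im_I_mul, lc, ls, half_re]
    ring
  have a4 : (bA2 ((π : ℂ) / 4) 0 0).im = π / 4 := by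
    unfold bA2
    rw [hu, add_zero, mul_zero, add_zero, Complex.cos_zero, Complex.log_one, add_zero,
      Complex.sub_im, Complex.add_im, im_I_mul, im_I_mul, ls, half_re, q1]
    ring
  have b4 : (bB2 ((π : ℂ) / 4) 0 0).im = π / 4 := by
    unfold bB2
    rw [hu, sub_zero, mul_zero, sub_zero, Complex.cos_zero, Complex.log_one, sub_zero,
      Complex.sub_im, im_I_mul, lc, q1, sub_zero]
  have hb : GapVol.lob (π / 4) = π / 4 * bet := by
    unfold GapVol.lob bet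
    have e : ∫ t in (0:ℝ)..(π / 4), Real.log |2 * Real.sin t| =
        ∫ t in (0:ℝ)..(π / 4), Real.log (2 * Real.sin t) := by
      apply intervalIntegral.integral_congr
      intro t ht
      simp only
      rw [Real.log_abs]
    rw [e]
    field_simp
  rw [bv_eq, neg_zero]
  unfold tv th
  rw [a1, b1, a2, b2, a3, b3, a4, b4]
  rw [show π - π / 4 - π / 2 = π / 4 by ring, show π - π / 4 - π / 4 = π / 2 by ring,
    GapVol.lob_half, hb]
  ring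

/-! ### From the origin to `(0, 0, c)` -/

lemma RG.smul {c : ℂ} (h : RG c) {t : ℝ} (h0 : 0 ≤ t) (h1 : t ≤ 1) : RG (t * c) := by
  obtain ⟨x0, x1, y0⟩ := h
  have e1 : ((t : ℂ) * c).re = t * c.re := Complex.re_ofReal_mul _ _
  have e2 : ((t : ℂ) * c).im = t * c.im := Complex.im_ofReal_mul _ _
  have hpi := Real.pi_pos
  refine ⟨?_, ?_, ?_⟩
  · rw [e1]; nlinarith
  · rw [e1]; nlinarith
  · rw [e2]; positivity

/-- `2 artanh (sin c)` -/
lemma lcr_base {c : ℂ} (hc : RG c) : lcr (acf (Rf 0 0 c) / 2) c = 2 * gh (2 * c) := by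
  have g := hc.tg
  have hA := base_a g (a := acf (Rf 0 0 c) / 2) (by rw [(rf0 c).1])
  have l := lg_base hc hA
  have nC : cos c ≠ 0 := ne_of_re g.c1
  have hpi := Real.pi_pos
  have l1 := l.lp
  have l2 := l.w0
  have l3 := l.w1
  unfold lcr gh
  rw [show 2 * c / 2 = c by ring, l.e2, l.e3]
  have e : log ((1 + sin c) / cos c) = log (1 + sin c) - log (cos c) := by
    have e : (1 + sin c) / cos c = exp (log (1 + sin c) - log (cos c)) := by
      rw [Complex.exp_sub, Complex.exp_log l.np, Complex.exp_log nC]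
    rw [e, Complex.log_exp]
    · rw [Complex.sub_im]; linarith
    · rw [Complex.sub_im]; linarith
  rw [e]
  linear_combination -l.e4

theorem leg1 (hS : S_S0P) {Λ : ℂ → ℂ}
    (hΛ : ∀ z ∈ Metric.ball (0 : ℂ) (π / 2), HasDerivAt Λ (log (cos z)) z) {c : ℂ} (hc : RG c)
    (h : ∀ t : ℝ, 0 ≤ t → t ≤ 1 → ((0 : ℂ), (0 : ℂ), (t : ℂ) * c) ∈ interior {p | Gd p}) :
    vc Λ (acf (Rf 0 0 c) / 2) 0 0 c = 2 * π * (s0 (2 * c)).re := by
  have hpi := Real.pi_pos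
  have key := const01 (F := fun t : ℝ => vc Λ (acf (Rf 0 0 (t * c)) / 2) 0 0 (t * c) -
    2 * π * (s0 (2 * (t * c))).re) (by
    intro s hs
    have hcf : HasDerivAt (fun t : ℝ => (t : ℂ) * c) c s := by
      have := (Complex.ofRealCLM.hasDerivAt (x := s)).mul_const c
      simpa using this
    have h0 : HasDerivAt (fun _ : ℝ => (0 : ℂ)) 0 s := hasDerivAt_const s 0
    have d1 := leg hΛ h0 h0 hcf (ev_gd h0 h0 hcf (h s hs.1 hs.2))
    have hR := hc.smul hs.1 hs.2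
    have hre : |(2 * ((s : ℂ) * c)).re| < π := by
      rw [re_two, abs_lt]
      constructor <;> linarith [hR.x0, hR.x1]
    have d2 := ((hS.1 _ hre).1.comp s (hcf.const_mul 2))
    have d3 := (dre d2).const_mul (2 * π)
    refine (d1.sub d3).congr_deriv ?_
    rw [lcr_base hR, mul_zero, zero_add, zero_add]
    have e : -(1 / (π : ℂ)) * gh (2 * (s * c)) * (2 * c) =
        ((-(1 / π) : ℝ) : ℂ) * (2 * gh (2 * (s * c)) * c) := by
      push_cast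
      ring
    rw [e, Complex.re_ofReal_mul]
    field_simp
    ring)
  simp only [Complex.ofReal_one, one_mul, Complex.ofReal_zero, zero_mul, mul_zero] at key
  have h00 : vc Λ (acf (Rf 0 0 0) / 2) 0 0 0 = 4 * π * bet := by
    unfold vc
    rw [acf00, bv00]
    simp
  have hs0 : (s0 0).re = 2 * bet := by
    rw [hS.2.2.1, Complex.ofReal_re]
  rw [h00, hs0] at key
  linarith

/-! ### Near `(0, 0, χ₀)` -/

section
variable {χ₀ : ℂ} {ρ₀ c C : ℝ} {s dl : ℂ → ℂ → ℂ → ℂ}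

lemma rc_open (ρ : ℝ) : IsOpen (Rc ρ ρ) := by
  have e : Rc ρ ρ = (fun z : ℂ => |z.re|) ⁻¹' Set.Iio ρ ∩ (fun z : ℂ => |z.im|) ⁻¹' Set.Iio ρ :=
    rfl
  rw [e]
  exact (isOpen_Iio.preimage (by fun_prop)).inter (isOpen_Iio.preimage (by fun_prop))

lemma rz_open (χ₀ : ℂ) (ρ : ℝ) : IsOpen (Rz χ₀ ρ) := by
  have e : Rz χ₀ ρ = (fun z : ℂ => z - χ₀) ⁻¹' Rc ρ ρ := rfl
  rw [e]
  exact (rc_open ρ).preimage (by fun_prop)

lemma sder2 (hS : SDZ χ₀ ρ₀ c C s dl) {ψ ψ' χ : ℂ} (h : ψ ∈ Rc ρ₀ ρ₀) (h' : ψ' ∈ Rc ρ₀ ρ₀)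
    (hχ : χ ∈ Rz χ₀ ρ₀) :
    HasDerivAt (fun w => s ψ w χ) (-(1 / (2 * π)) * Lg (2 * π * dl ψ ψ' χ) ψ') ψ' := by
  have h1 := hS.sder ψ' h' ψ h χ hχ
  have h2 : (fun w => s ψ w χ) =ᶠ[𝓝 ψ'] fun w => s w ψ χ := by
    filter_upwards [(rc_open ρ₀).mem_nhds h'] with w hw using hS.sym _ h _ hw _ hχ
  rw [hS.dsym _ h _ h' _ hχ]
  exact h1.congr_of_eventuallyEq h2

/-- the derivative of the exponent along a curve -/
lemma sder3 (hS : SDZ χ₀ ρ₀ c C s dl) {f g h : ℝ → ℂ} {f' g' h' : ℂ} {t : ℝ}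
    (hf : HasDerivAt f f' t) (hg : HasDerivAt g g' t) (hh : HasDerivAt h h' t)
    (m1 : f t ∈ Rc ρ₀ ρ₀) (m2 : g t ∈ Rc ρ₀ ρ₀) (m3 : h t ∈ Rz χ₀ ρ₀) :
    HasDerivAt (fun x => s (f x) (g x) (h x)) (-(1 / (2 * π)) *
      (Lg (2 * π * dl (f t) (g t) (h t)) (f t) * f' + Lg (2 * π * dl (f t) (g t) (h t)) (g t) * g' +
        Lc (2 * π * dl (f t) (g t) (h t)) (h t) * h')) t := by
  have hU : Rc ρ₀ ρ₀ ×ˢ Rc ρ₀ ρ₀ ×ˢ Rz χ₀ ρ₀ ∈ 𝓝 (f t, g t, h t) :=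
    ((rc_open ρ₀).prod ((rc_open ρ₀).prod (rz_open χ₀ ρ₀))).mem_nhds ⟨m1, m2, m3⟩
  have D := ((hS.san).differentiableAt hU).hasFDerivAt
  obtain ⟨Φ, hΦ⟩ : ∃ Φ, Φ = fderiv ℂ (fun p : ℂ × ℂ × ℂ => s p.1 p.2.1 p.2.2) (f t, g t, h t) :=
    ⟨_, rfl⟩
  rw [← hΦ] at D
  have e1 : Φ (1, 0, 0) = -(1 / (2 * π)) * Lg (2 * π * dl (f t) (g t) (h t)) (f t) := by
    have c1 : HasDerivAt (fun z : ℂ => (z, g t, h t)) ((1 : ℂ), (0 : ℂ), (0 : ℂ)) (f t) :=
      (hasDerivAt_id _).prodMk ((hasDerivAt_const _ _).prodMk (hasDerivAt_const _ _))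
    have k : HasDerivAt (fun z => s z (g t) (h t)) (Φ (1, 0, 0)) (f t) :=
      HasFDerivAt.comp_hasDerivAt (f := fun z : ℂ => (z, g t, h t)) (f t) D c1
    exact k.unique (hS.sder _ m1 _ m2 _ m3)
  have e2 : Φ (0, 1, 0) = -(1 / (2 * π)) * Lg (2 * π * dl (f t) (g t) (h t)) (g t) := by
    have c1 : HasDerivAt (fun z : ℂ => (f t, z, h t)) ((0 : ℂ), (1 : ℂ), (0 : ℂ)) (g t) :=
      (hasDerivAt_const _ _).prodMk ((hasDerivAt_id _).prodMk (hasDerivAt_const _ _))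
    have k : HasDerivAt (fun z => s (f t) z (h t)) (Φ (0, 1, 0)) (g t) :=
      HasFDerivAt.comp_hasDerivAt (f := fun z : ℂ => (f t, z, h t)) (g t) D c1
    exact k.unique (sder2 hS m1 m2 m3)
  have e3 : Φ (0, 0, 1) = -(1 / (2 * π)) * Lc (2 * π * dl (f t) (g t) (h t)) (h t) := by
    have c1 : HasDerivAt (fun z : ℂ => (f t, g t, z)) ((0 : ℂ), (0 : ℂ), (1 : ℂ)) (h t) :=
      (hasDerivAt_const _ _).prodMk ((hasDerivAt_const _ _).prodMk (hasDerivAt_id _))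
    have k : HasDerivAt (fun z => s (f t) (g t) z) (Φ (0, 0, 1)) (h t) :=
      HasFDerivAt.comp_hasDerivAt (f := fun z : ℂ => (f t, g t, z)) (h t) D c1
    rw [k.unique (hS.sderc _ m1 _ m2 _ m3), lg_lc]
  have c0 : HasDerivAt (fun x : ℝ => (f x, g x, h x)) (f', g', h') t :=
    hf.prodMk (hg.prodMk hh)
  have D' := (D.restrictScalars ℝ).comp_hasDerivAt t c0
  refine D'.congr_deriv ?_
  have e4 : ((f', g', h') : ℂ × ℂ × ℂ) = f' • ((1 : ℂ), (0 : ℂ), (0 : ℂ)) +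
      (g' • ((0 : ℂ), (1 : ℂ), (0 : ℂ)) + h' • ((0 : ℂ), (0 : ℂ), (1 : ℂ))) := by
    simp
  rw [ContinuousLinearMap.coe_restrictScalars', e4, map_add, map_add, map_smul, map_smul, map_smul,
    e1, e2, e3]
  simp only [smul_eq_mul]
  ring

/-- the value of `u` -/
lemma u_eq (hS : SDZ χ₀ ρ₀ c C s dl) {ψ ψ' χ : ℂ} (h : ψ ∈ Rc ρ₀ ρ₀) (h' : ψ' ∈ Rc ρ₀ ρ₀)
    (hχ : χ ∈ Rz χ₀ ρ₀) (g : Gd (ψ / 2, ψ' / 2, χ / 2)) :
    2 * π * dl ψ ψ' χ = acf (Rf (ψ / 2) (ψ' / 2) (χ / 2)) := by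
  have hpi := Real.pi_pos
  refine cos_unique' ?_ g.re ?_
  · have h3 := hS.dclose _ h _ h' _ hχ
    have h4 : ‖(2 : ℂ) * π * dl ψ ψ' χ - π / 2‖ ≤ π / 4 := by
      rw [show (2 : ℂ) * π * dl ψ ψ' χ - π / 2 = 2 * π * (dl ψ ψ' χ - 1 / 4) by ring, norm_mul,
        norm_mul, Complex.norm_ofNat, Complex.norm_real, Real.norm_eq_abs, abs_of_pos Real.pi_pos]
      nlinarith [Real.pi_pos]
    have h5 := (Complex.abs_re_le_norm _).trans h4
    rw [Complex.sub_re, half_re, abs_le] at h5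
    constructor <;> linarith
  · rw [acf_cos' g.sr, hS.dcos _ h _ h' _ hχ]
    unfold Rf
    rw [show 2 * (χ / 2) = χ by ring, show 2 * (ψ / 2) = ψ by ring,
      show 2 * (ψ' / 2) = ψ' by ring]

theorem leg2 (hS0 : S_S0P) (hS : SDZ χ₀ ρ₀ c C s dl) {Λ : ℂ → ℂ}
    (hΛ : ∀ z ∈ Metric.ball (0 : ℂ) (π / 2), HasDerivAt Λ (log (cos z)) z) (hc : RG (χ₀ / 2))
    (h : ∀ t : ℝ, 0 ≤ t → t ≤ 1 → ((0 : ℂ), (0 : ℂ), (t : ℂ) * (χ₀ / 2)) ∈ interior {p | Gd p})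
    {ψ ψ' χ : ℂ} (h1 : ψ ∈ Rc ρ₀ ρ₀) (h2 : ψ' ∈ Rc ρ₀ ρ₀) (h3 : χ ∈ Rz χ₀ ρ₀)
    (h4 : ∀ t : ℝ, 0 ≤ t → t ≤ 1 → ((t : ℂ) * ψ / 2, (t : ℂ) * ψ' / 2,
      (χ₀ + (t : ℂ) * (χ - χ₀)) / 2) ∈ interior {p | Gd p}) :
    vc Λ (2 * π * dl ψ ψ' χ / 2) (ψ / 2) (ψ' / 2) (χ / 2) = 2 * π * (s ψ ψ' χ).re := by
  have hpi := Real.pi_pos
  have hmc : ∀ {x : ℂ}, x ∈ Rc ρ₀ ρ₀ → ∀ {t : ℝ}, 0 ≤ t → t ≤ 1 → (t : ℂ) * x ∈ Rc ρ₀ ρ₀ := by
    intro x hx t t0 t1
    obtain ⟨a1, a2⟩ := hx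
    refine ⟨?_, ?_⟩
    · rw [Complex.re_ofReal_mul, abs_mul, abs_of_nonneg t0]
      have := abs_nonneg x.re
      nlinarith
    · rw [Complex.im_ofReal_mul, abs_mul, abs_of_nonneg t0]
      have := abs_nonneg x.im
      nlinarith
  have hmz : ∀ {t : ℝ}, 0 ≤ t → t ≤ 1 → χ₀ + (t : ℂ) * (χ - χ₀) ∈ Rz χ₀ ρ₀ := by
    intro t t0 t1
    show χ₀ + (t : ℂ) * (χ - χ₀) - χ₀ ∈ Rc ρ₀ ρ₀
    rw [add_sub_cancel_left]
    exact hmc h3 t0 t1
  have key := const01 (F := fun t : ℝ => vc Λ (acf (Rf (t * ψ / 2) (t * ψ' / 2)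
      ((χ₀ + t * (χ - χ₀)) / 2)) / 2) (t * ψ / 2) (t * ψ' / 2) ((χ₀ + t * (χ - χ₀)) / 2) -
    2 * π * (s (t * ψ) (t * ψ') (χ₀ + t * (χ - χ₀))).re) (by
    intro r hr
    have hid : ∀ x : ℂ, HasDerivAt (fun t : ℝ => (t : ℂ) * x) x r := by
      intro x
      have := (Complex.ofRealCLM.hasDerivAt (x := r)).mul_const x
      simpa using this
    have hb := (hid ψ)
    have hd := (hid ψ')
    have hcf := (hid (χ - χ₀)).const_add χ₀
    have hg := interior_subset (s := {p | Gd p}) (h4 r hr.1 hr.2)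
    have d1 := leg hΛ (hb.div_const 2) (hd.div_const 2) (hcf.div_const 2)
      (ev_gd (hb.div_const 2) (hd.div_const 2) (hcf.div_const 2) (h4 r hr.1 hr.2))
    have i1 := hmc h1 hr.1 hr.2
    have i2 := hmc h2 hr.1 hr.2
    have i3 := hmz hr.1 hr.2
    have d2 := sder3 hS hb hd hcf i1 i2 i3
    have d3 := (dre d2).const_mul (2 * π)
    refine (d1.sub d3).congr_deriv ?_
    have hu := u_eq hS i1 i2 i3 hg
    have hB : BG (acf (Rf (r * ψ / 2) (r * ψ' / 2) ((χ₀ + r * (χ - χ₀)) / 2)) / 2) (r * ψ / 2)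
      (r * ψ' / 2) ((χ₀ + r * (χ - χ₀)) / 2) := hg.bg
    obtain ⟨g1, g2, g3⟩ := hB.lg1
    rw [hu, g1, g2, g3]
    have e : ∀ x y z : ℂ, -(1 / (2 * (π : ℂ))) * (x * ψ + y * ψ' + z * (χ - χ₀)) =
        ((-(1 / π) : ℝ) : ℂ) * (x * (ψ / 2) + y * (ψ' / 2) + z * ((χ - χ₀) / 2)) := by
      intro x y z
      push_cast
      ring
    rw [e, Complex.re_ofReal_mul]
    field_simp
    ring)
  simp only [Complex.ofReal_one, one_mul, Complex.ofReal_zero, zero_mul, zero_div, add_zero,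
    add_sub_cancel] at key
  have k1 := leg1 hS0 hΛ hc h
  have z0 : (0 : ℂ) ∈ Rc ρ₀ ρ₀ := by
    have := hmc h1 le_rfl zero_le_one
    simpa using this
  have zχ : χ₀ ∈ Rz χ₀ ρ₀ := by
    have := hmz le_rfl zero_le_one
    simpa using this
  rw [k1, hS.zero _ zχ, show 2 * (χ₀ / 2) = χ₀ by ring, sub_self] at key
  have hg := interior_subset (s := {p | Gd p}) (h4 1 zero_le_one le_rfl)
  simp only [Complex.ofReal_one, one_mul, add_sub_cancel] at hg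
  rw [u_eq hS h1 h2 h3 hg]
  linarith

end

end Pool.Agent.Y482.Cz
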