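import Pool.Agent.Y482.Cz.Arg

/-!
# The base points `b = d = 0`
-/

set_option autoImplicit false

namespace Pool.Agent.Y482.Cz

open Filter
open Complex (exp log cos sin I)
open Pool.Agent.Y482.Chi hiding tri_a1 tri_a2 tri_b1 tri_b2
open scoped Real Topology ComplexConjugate

/-- half of a block -/
structure HB (a b c : ℂ) : Prop where
  t1 : Tri (aA1 a b) (aB1 a b)
  t2 : Tri (aA2 a b c) (aB2 a b c)
  t3 : Tri (bA1 a b c) (bB1 a b c)
  t4 : Tri (bA2 a b c) (bB2 a b c)
  sb : cos b ∈ Complex.slitPlane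
  sK : cos (b + c) ∈ Complex.slitPlane
  sCp : cos (a + b) ∈ Complex.slitPlane
  sCm : cos (a - b) ∈ Complex.slitPlane
  ssp : sin (a + c) ∈ Complex.slitPlane
  ssa : sin a ∈ Complex.slitPlane
  sU : uph a b c ∈ Complex.slitPlane

theorem ev_HB {X : Type*} [TopologicalSpace X] {x : X} {A B C : X → ℂ} (hA : ContinuousAt A x)
    (hB : ContinuousAt B x) (hC : ContinuousAt C x) (h : HB (A x) (B x) (C x)) :
    ∀ᶠ p in 𝓝 x, HB (A p) (B p) (C p) := by
  have cb : ContinuousAt (fun p => cos (B p)) x := Complex.continuous_cos.continuousAt.comp hB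
  have cK : ContinuousAt (fun p => cos (B p + C p)) x :=
    Complex.continuous_cos.continuousAt.comp (hB.add hC)
  have cCp : ContinuousAt (fun p => cos (A p + B p)) x :=
    Complex.continuous_cos.continuousAt.comp (hA.add hB)
  have cCm : ContinuousAt (fun p => cos (A p - B p)) x :=
    Complex.continuous_cos.continuousAt.comp (hA.sub hB)
  have csp : ContinuousAt (fun p => sin (A p + C p)) x :=
    Complex.continuous_sin.continuousAt.comp (hA.add hC)
  have csa : ContinuousAt (fun p => sin (A p)) x := Complex.continuous_sin.continuousAt.comp hA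
  have cU : ContinuousAt (fun p => uph (A p) (B p) (C p)) x := by
    have e1 : ContinuousAt (fun p => exp (I * (A p + C p))) x :=
      Complex.continuous_exp.continuousAt.comp ((hA.add hC).const_mul I)
    have e2 : ContinuousAt (fun p => sin (C p)) x := Complex.continuous_sin.continuousAt.comp hC
    exact ((cb.pow 2).mul e1).add (csa.mul e2)
  have v1 := ev_sp cb h.sb
  have v2 := ev_sp cK h.sK
  have v3 := ev_sp cCp h.sCp
  have v4 := ev_sp cCm h.sCm
  have v5 := ev_sp csp h.ssp
  have v6 := ev_sp csa h.ssa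
  have v7 := ev_sp cU h.sU
  have lb := cb.clog h.sb
  have lK := cK.clog h.sK
  have lCp := cCp.clog h.sCp
  have lCm := cCm.clog h.sCm
  have lsp := csp.clog h.ssp
  have lsa := csa.clog h.ssa
  have lU : ContinuousAt (fun p => ups (A p) (B p) (C p)) x := cU.clog h.sU
  have hIA := hA.const_mul I
  have hIB := hB.const_mul I
  have hIC := hC.const_mul I
  have hk : ContinuousAt (fun _ : X => I * ((π : ℂ) / 2)) x := continuousAt_const
  have w1 := ev_tri (A := fun p => aA1 (A p) (B p)) (B := fun p => aB1 (A p) (B p))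
    ((lb.add hIA).sub lCp) (((hk.add lCp).add hIB).sub lsa) h.t1 (by
      filter_upwards [v1, v3, v6] with p h1 h2 h3
      exact eq_a1 (Complex.slitPlane_ne_zero h1) (Complex.slitPlane_ne_zero h2)
        (Complex.slitPlane_ne_zero h3))
  have w2 := ev_tri (A := fun p => aA2 (A p) (B p) (C p)) (B := fun p => aB2 (A p) (B p) (C p))
    ((((hk.add lsp).sub hIA).add hIB).sub lK) (((lK.add hIA).add hIC).sub lCm) h.t2 (by
      filter_upwards [v2, v4, v5] with p h1 h2 h3
      exact eq_a2 (Complex.slitPlane_ne_zero h1) (Complex.slitPlane_ne_zero h2)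
        (Complex.slitPlane_ne_zero h3))
  have w3 := ev_tri (A := fun p => bA1 (A p) (B p) (C p)) (B := fun p => bB1 (A p) (B p) (C p))
    ((lU.sub lCp).sub lK) (((((hk.add hIB).add lCp).add lK).sub lb).sub lsp) h.t3 (by
      filter_upwards [v1, v2, v3, v5, v7] with p h1 h2 h3 h4 h5
      exact eq_b1 (Complex.slitPlane_ne_zero h1) (Complex.slitPlane_ne_zero h2)
        (Complex.slitPlane_ne_zero h3) (Complex.slitPlane_ne_zero h4)
        (Complex.slitPlane_ne_zero h5))
  have w4 := ev_tri (A := fun p => bA2 (A p) (B p) (C p)) (B := fun p => bB2 (A p) (B p) (C p))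
    ((((hk.add lsa).add hIB).add lK).sub lU) (((lU.sub hIC).sub lCm).sub lb) h.t4 (by
      filter_upwards [v1, v2, v4, v6, v7] with p h1 h2 h3 h4 h5
      exact eq_b2 (Complex.slitPlane_ne_zero h1) (Complex.slitPlane_ne_zero h2)
        (Complex.slitPlane_ne_zero h3) (Complex.slitPlane_ne_zero h4)
        (Complex.slitPlane_ne_zero h5))
  filter_upwards [v1, v2, v3, v4, v5, v6, v7, w1, w2, w3, w4] with p k1 k2 k3 k4 k5 k6 k7 k8 k9
    k10 k11
  exact ⟨k8, k9, k10, k11, k1, k2, k3, k4, k5, k6, k7⟩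

/-! ### The base points -/

/-- the region of `c` -/
structure RG (c : ℂ) : Prop where
  x0 : -(π / 4) ≤ c.re
  x1 : c.re ≤ 0
  y0 : 0 ≤ c.im

lemma cos_parts (c : ℂ) : (cos c).re = Real.cos c.re * Real.cosh c.im ∧
    (cos c).im = -(Real.sin c.re * Real.sinh c.im) := by
  have h : cos c = ((Real.cos c.re * Real.cosh c.im : ℝ) : ℂ) -
      ((Real.sin c.re * Real.sinh c.im : ℝ) : ℂ) * I := by
    rw [Complex.cos_eq]
    push_cast
    ring
  rw [h]
  generalize Real.cos c.re * Real.cosh c.im = r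
  generalize Real.sin c.re * Real.sinh c.im = t
  constructor <;> simp

lemma sin_parts (c : ℂ) : (sin c).re = Real.sin c.re * Real.cosh c.im ∧
    (sin c).im = Real.cos c.re * Real.sinh c.im := by
  have h : sin c = ((Real.sin c.re * Real.cosh c.im : ℝ) : ℂ) +
      ((Real.cos c.re * Real.sinh c.im : ℝ) : ℂ) * I := by
    rw [Complex.sin_eq]
    push_cast
    ring
  rw [h]
  generalize Real.sin c.re * Real.cosh c.im = r
  generalize Real.cos c.re * Real.sinh c.im = t
  constructor <;> simp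

/-- the inequalities at the base points -/
structure TG (C s : ℂ) : Prop where
  eq : C ^ 2 + s ^ 2 = 1
  c1 : 0 < C.re
  c2 : 0 ≤ C.im
  c3 : C.im < C.re
  s1 : s.re ≤ 0
  s2 : 0 ≤ s.im
  s3 : 0 < 1 + s.re + s.im
  s4 : s.im = 0 → -1 < s.re
  d1 : 0 < C.re - s.im
  d2 : 0 < 1 + C.im + s.re
  e1 : 0 < s.im + C.re + (s.re * C.re + s.im * C.im)
  e2 : 0 < -s.im + C.re - (s.re * C.re + s.im * C.im)
  e3 : 0 < C.re + (s.re * C.re + s.im * C.im)
  e4 : 0 < C.re - (s.re * C.re + s.im * C.im)

lemma RG.tg {c : ℂ} (h : RG c) : TG (cos c) (sin c) := by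
  obtain ⟨c1, c2⟩ := cos_parts c
  obtain ⟨s1, s2⟩ := sin_parts c
  have hpi := Real.pi_pos
  have hpi3 := Real.pi_gt_three
  have X0 : 0 < Real.cos c.re := Real.cos_pos_of_mem_Ioo ⟨by linarith [h.x0], by linarith [h.x1]⟩
  have Y0 : Real.sin c.re ≤ 0 :=
    Real.sin_nonpos_of_nonpos_of_neg_pi_le h.x1 (by linarith [h.x0])
  have XY : -Real.sin c.re ≤ Real.cos c.re := by
    have e1 : Real.sin (-c.re) ≤ Real.sin (π / 4) :=
      Real.sin_le_sin_of_le_of_le_pi_div_two (by linarith [h.x1]) (by linarith) (by linarith [h.x0])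
    have e2 : Real.cos (π / 4) ≤ Real.cos (-c.re) :=
      Real.cos_le_cos_of_nonneg_of_le_pi (by linarith [h.x1]) (by linarith) (by linarith [h.x0])
    rw [Real.sin_neg, sc_quarter] at e1
    rw [Real.cos_neg] at e2
    linarith
  have XX := Real.sin_sq_add_cos_sq c.re
  have Y1 : -1 < Real.sin c.re := by nlinarith
  have p0 := Real.cosh_pos c.im
  have p1 := Real.one_le_cosh c.im
  have q0 : 0 ≤ Real.sinh c.im := Real.sinh_nonneg_iff.2 h.y0
  have pq := Real.cosh_sq c.im
  have pq1 : Real.sinh c.im < Real.cosh c.im := Real.sinh_lt_cosh c.im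
  have pq2 : Real.cosh c.im - Real.sinh c.im ≤ 1 := by
    rw [Real.cosh_sub_sinh]
    exact Real.exp_le_one_iff.2 (by linarith [h.y0])
  generalize Real.cos c.re = X at *
  generalize Real.sin c.re = Y at *
  generalize Real.cosh c.im = p at *
  generalize Real.sinh c.im = q at *
  have hr : (sin c).re * (cos c).re + (sin c).im * (cos c).im = X * Y := by
    rw [c1, c2, s1, s2]
    linear_combination (X * Y) * pq
  have yX : Y * p + X * q ≥ Y * (p - q) := by nlinarith
  refine ⟨?_, ?_, ?_, ?_, ?_, ?_, ?_, ?_, ?_, ?_, ?_, ?_, ?_, ?_⟩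
  · linear_combination Complex.sin_sq_add_cos_sq c
  · rw [c1]; positivity
  · rw [c2]; nlinarith
  · rw [c1, c2]; nlinarith
  · rw [s1]; nlinarith
  · rw [s2]; positivity
  · rw [s1, s2]; nlinarith
  · rw [s1, s2]
    intro h0
    have : q = 0 := by
      rcases mul_eq_zero.1 h0 with h1 | h1
      · linarith
      · exact h1
    rw [this] at pq
    have : p = 1 := by nlinarith
    rw [this]
    linarith
  · rw [c1, s2]; nlinarith
  · rw [c2, s1]; nlinarith
  · rw [hr, c1, s2]; nlinarith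
  · rw [hr, c1, s2]; nlinarith
  · rw [hr, c1]; nlinarith
  · rw [hr, c1]; nlinarith

/-- the value of `R` -/
lemma rf0 (c : ℂ) : Rf 0 0 c = (cos c ^ 2 - 1) / (1 + cos c ^ 2) ∧
    1 + cos (2 * c) + cos (2 * (0 : ℂ)) + cos (2 * (0 : ℂ)) = 2 * (1 + cos c ^ 2) := by
  have e := Complex.cos_two_mul c
  unfold Rf
  rw [mul_zero, Complex.cos_zero, e]
  refine ⟨?_, by ring⟩
  rw [show 2 * cos c ^ 2 - 1 - 1 * 1 = 2 * (cos c ^ 2 - 1) by ring,
    show 1 + (2 * cos c ^ 2 - 1) + 1 + 1 = 2 * (1 + cos c ^ 2) by ring,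
    mul_div_mul_left _ _ (two_ne_zero)]

/-- facts about `a` at the base points -/
structure AG (a C : ℂ) : Prop where
  a0 : 0 < a.re
  a1 : a.re < π / 2
  ss : sin a ^ 2 * (1 + C ^ 2) = 1
  cs : cos a = C * sin a
  r1 : 0 < (sin a).re
  r2 : (sin a).im ≤ 0
  r3 : -(sin a).im < (sin a).re
  r4 : 0 < (cos a).re

/-- the domain of `acf` -/
lemma base_R {C s : ℂ} (h : TG C s) : 1 + C ^ 2 ≠ 0 ∧ SR ((C ^ 2 - 1) / (1 + C ^ 2)) ∧
    0 < (acf ((C ^ 2 - 1) / (1 + C ^ 2))).re ∧ (acf ((C ^ 2 - 1) / (1 + C ^ 2))).re < π := by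
  have hre : (C ^ 2).re = C.re ^ 2 - C.im ^ 2 := by rw [sq, Complex.mul_re]; ring
  have him : (C ^ 2).im = 2 * C.re * C.im := by rw [sq, Complex.mul_im]; ring
  have c1 := h.c1
  have c2 := h.c2
  have c3 := h.c3
  have hu : 0 < (1 + C ^ 2).re := by
    rw [Complex.add_re, Complex.one_re, hre]
    nlinarith
  have u0 : 1 + C ^ 2 ≠ 0 := ne_of_re hu
  have hCi : C + I ≠ 0 := by
    refine ne_of_re ?_
    rw [Complex.add_re, Complex.I_re, add_zero]
    exact c1
  have hCi' : C - I ≠ 0 := by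
    refine ne_of_re ?_
    rw [Complex.sub_re, Complex.I_re, sub_zero]
    exact c1
  have hfac : 1 + C ^ 2 = (C + I) * (C - I) := by linear_combination Complex.I_sq
  set T := 2 * C / (1 + C ^ 2) with hT
  have hT0 : 0 < T.re := by
    have e1 : T = 1 / (C + I) + 1 / (C - I) := by
      rw [hT, hfac]
      field_simp
      ring
    rw [e1, Complex.add_re, one_div, one_div, Complex.inv_re, Complex.inv_re, Complex.add_re,
      Complex.sub_re, Complex.I_re, add_zero, sub_zero]
    have n1 := Complex.normSq_pos.2 hCi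
    have n2 := Complex.normSq_pos.2 hCi'
    positivity
  have hR : 1 - ((C ^ 2 - 1) / (1 + C ^ 2)) ^ 2 = T ^ 2 := by
    rw [hT]
    field_simp
    ring
  have hW : I * ((C ^ 2 - 1) / (1 + C ^ 2)) + T = 2 / (C + I) + I := by
    rw [hT, hfac]
    field_simp
    linear_combination I * Complex.I_sq
  have hW0 : 0 < (2 / (C + I) + I).re := by
    rw [Complex.add_re, Complex.I_re, add_zero, show (2 : ℂ) / (C + I) = (2 : ℝ) * (C + I)⁻¹ by
      push_cast; rw [div_eq_mul_inv], Complex.re_ofReal_mul, Complex.inv_re, Complex.add_re,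
      Complex.I_re, add_zero]
    have n1 := Complex.normSq_pos.2 hCi
    positivity
  have hs : exp (log (1 - ((C ^ 2 - 1) / (1 + C ^ 2)) ^ 2) / 2) = T := by
    rw [hR, sqrt_sq hT0]
  refine ⟨u0, ⟨?_, ?_⟩, ?_⟩
  · rw [hR]; exact sq_sp hT0
  · rw [hs, hW]; exact sp_of_re hW0
  · unfold acf
    rw [hs, hW, Complex.add_re, re_I_mul, half_re]
    have := arg_half hW0
    rw [abs_lt] at this
    constructor <;> linarith

/-- facts about `a` at the base points -/
theorem base_a {C s : ℂ} (h : TG C s) {a : ℂ} (ha : a = acf ((C ^ 2 - 1) / (1 + C ^ 2)) / 2) :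
    AG a C := by
  obtain ⟨u0, hSR, a0, a1⟩ := base_R h
  have hre : (C ^ 2).re = C.re ^ 2 - C.im ^ 2 := by rw [sq, Complex.mul_re]; ring
  have him : (C ^ 2).im = 2 * C.re * C.im := by rw [sq, Complex.mul_im]; ring
  have c1 := h.c1
  have c2 := h.c2
  have c3 := h.c3
  have har : a.re = (acf ((C ^ 2 - 1) / (1 + C ^ 2))).re / 2 := by
    rw [ha, show acf ((C ^ 2 - 1) / (1 + C ^ 2)) / 2 =
      ((1 / 2 : ℝ) : ℂ) * acf ((C ^ 2 - 1) / (1 + C ^ 2)) by push_cast; ring,
      Complex.re_ofReal_mul]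
    ring
  have ha0 : 0 < a.re := by rw [har]; linarith
  have ha1 : a.re < π / 2 := by rw [har]; linarith
  have hpi := Real.pi_pos
  have hc2 : cos (2 * a) = (C ^ 2 - 1) / (1 + C ^ 2) := by
    rw [ha, mul_div_cancel₀ _ two_ne_zero]
    exact acf_cos' hSR
  have hss : sin a ^ 2 * (1 + C ^ 2) = 1 := by
    rw [Complex.cos_two_mul, eq_div_iff u0] at hc2
    have := Complex.sin_sq_add_cos_sq a
    linear_combination (1 + C ^ 2) * this - (1 / 2) * hc2
  have hcc : cos a ^ 2 * (1 + C ^ 2) = C ^ 2 := by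
    have := Complex.sin_sq_add_cos_sq a
    linear_combination (1 + C ^ 2) * this - hss
  have hS1 : 0 < (sin a).re := by
    rw [(sin_parts a).1]
    exact mul_pos (Real.sin_pos_of_pos_of_lt_pi ha0 (by linarith)) (Real.cosh_pos _)
  have hC1 : 0 < (cos a).re := by
    rw [(cos_parts a).1]
    exact mul_pos (Real.cos_pos_of_mem_Ioo ⟨by linarith, by linarith⟩) (Real.cosh_pos _)
  have hSre : (sin a ^ 2).re = (sin a).re ^ 2 - (sin a).im ^ 2 := by rw [sq, Complex.mul_re]; ring
  have hSim : (sin a ^ 2).im = 2 * (sin a).re * (sin a).im := by rw [sq, Complex.mul_im]; ring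
  have hinv : sin a ^ 2 = (1 + C ^ 2)⁻¹ := eq_inv_of_mul_eq_one_left hss
  have n1 := Complex.normSq_pos.2 u0
  have k1 : 0 < (sin a ^ 2).re := by
    rw [hinv, Complex.inv_re, Complex.add_re, Complex.one_re, hre]
    apply div_pos _ n1
    nlinarith
  have k2 : (sin a ^ 2).im ≤ 0 := by
    rw [hinv, Complex.inv_im, Complex.add_im, Complex.one_im, him]
    apply div_nonpos_of_nonpos_of_nonneg _ n1.le
    nlinarith [mul_nonneg c1.le c2]
  have r2 : (sin a).im ≤ 0 := by
    rw [hSim] at k2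
    by_contra hc
    rw [not_le] at hc
    nlinarith [mul_pos hS1 hc]
  have r3 : -(sin a).im < (sin a).re := by
    rw [hSre] at k1
    nlinarith
  have hcs : cos a = C * sin a := by
    have e : cos a ^ 2 = (C * sin a) ^ 2 := by
      apply mul_right_cancel₀ u0
      linear_combination hcc - C ^ 2 * hss
    rcases sq_eq_sq_iff_eq_or_eq_neg.1 e with e | e
    · exact e
    · exfalso
      rw [e, Complex.neg_re, Complex.mul_re] at hC1
      nlinarith [mul_pos c1 hS1, mul_nonneg c2 (neg_nonneg.2 r2)]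
  exact ⟨ha0, ha1, hss, hcs, hS1, r2, r3, hC1⟩

/-! ### Logarithms at the base points -/

/-- the logarithms at the base points -/
structure LG (a c : ℂ) : Prop where
  w0 : 0 ≤ (log (cos c)).im
  w1 : (log (cos c)).im < π / 4
  al : -(π / 4) < (log (sin a)).im ∧ (log (sin a)).im ≤ 0
  lp : 0 ≤ (log (1 + sin c)).im ∧ (log (1 + sin c)).im < 3 * π / 4
  lm : -(π / 2) < (log (1 - sin c)).im ∧ (log (1 - sin c)).im ≤ 0
  np : 1 + sin c ≠ 0
  nm : 1 - sin c ≠ 0
  e1 : log (cos a) = log (sin a) + log (cos c)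
  e4 : log (1 + sin c) + log (1 - sin c) = 2 * log (cos c)
  e2 : log (sin (a + c)) = log (cos a) + log (1 + sin c)
  e3 : log (sin (a - c)) = log (cos a) + log (1 - sin c)
  v2 : sin (a + c) = cos a * (1 + sin c)
  v3 : sin (a - c) = cos a * (1 - sin c)
  e5 : log (uph a 0 c) = log (cos a) + log (cos c + I * (1 + sin c))
  e6 : log (uph a 0 (-c)) = log (cos a) + log (cos c + I * (1 - sin c))
  v5 : uph a 0 c = cos a * (cos c + I * (1 + sin c))
  v6 : uph a 0 (-c) = cos a * (cos c + I * (1 - sin c))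
  dp : 0 < (log (cos c + I * (1 + sin c))).im ∧ (log (cos c + I * (1 + sin c))).im < π / 2
  dm : 0 < (log (cos c + I * (1 - sin c))).im ∧ (log (cos c + I * (1 - sin c))).im < π / 2
  np' : cos c + I * (1 + sin c) ≠ 0
  nm' : cos c + I * (1 - sin c) ≠ 0

theorem lg_base {a c : ℂ} (hc : RG c) (h : AG a (cos c)) : LG a c := by
  have g := hc.tg
  have hpi := Real.pi_pos
  have nC : cos c ≠ 0 := ne_of_re g.c1
  have nS : sin a ≠ 0 := ne_of_re h.r1
  have nc : cos a ≠ 0 := ne_of_re h.r4
  have w0 := arg_nonneg g.c2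
  have w1 := quarter g.c1 g.c3
  have al0 := quarter' h.r1 h.r3
  have al1 := arg_nonpos h.r1 h.r2
  have pre : (1 + sin c).re = 1 + (sin c).re := by simp
  have pim : (1 + sin c).im = (sin c).im := by simp
  have mre : (1 - sin c).re = 1 - (sin c).re := by simp
  have mim : (1 - sin c).im = -(sin c).im := by simp
  have lp0 : 0 ≤ (log (1 + sin c)).im := arg_nonneg (by rw [pim]; exact g.s2)
  have lp1 : (log (1 + sin c)).im < 3 * π / 4 :=
    three_quarter (by rw [pim]; exact g.s2) (by rw [pre, pim]; exact g.s3)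
  have m0 : 0 < (1 - sin c).re := by rw [mre]; linarith [g.s1]
  have lm0 := arg_half m0
  have lm1 : (log (1 - sin c)).im ≤ 0 := arg_nonpos m0 (by rw [mim]; linarith [g.s2])
  rw [abs_lt] at lm0
  have np : 1 + sin c ≠ 0 := by
    intro h0
    have h1 := congrArg Complex.re h0
    have h2 := congrArg Complex.im h0
    rw [pre, Complex.zero_re] at h1
    rw [pim, Complex.zero_im] at h2
    linarith [g.s4 h2]
  have nm : 1 - sin c ≠ 0 := ne_of_re m0
  have ca := arg_half h.r4
  rw [abs_lt] at ca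
  have e1 : log (cos a) = log (sin a) + log (cos c) := by
    rw [h.cs, mul_comm, log_mul_of nS nC (by linarith) (by linarith)]
  have e1i := congrArg Complex.im e1
  rw [Complex.add_im] at e1i
  have e4 : log (1 + sin c) + log (1 - sin c) = 2 * log (cos c) := by
    apply exp_inj'
    · rw [Complex.exp_add, Complex.exp_log np, Complex.exp_log nm,
        show 2 * log (cos c) = log (cos c) + log (cos c) by ring, Complex.exp_add,
        Complex.exp_log nC]
      linear_combination -g.eq
    · rw [Complex.add_im, im_two, abs_lt]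
      constructor <;> linarith
  have v2 : sin (a + c) = cos a * (1 + sin c) := by
    rw [Complex.sin_add]
    linear_combination (-1 : ℂ) * h.cs
  have v3 : sin (a - c) = cos a * (1 - sin c) := by
    rw [Complex.sin_sub]
    linear_combination (-1 : ℂ) * h.cs
  have e2 : log (sin (a + c)) = log (cos a) + log (1 + sin c) := by
    rw [v2, log_mul_of nc np (by linarith) (by linarith)]
  have e3 : log (sin (a - c)) = log (cos a) + log (1 - sin c) := by
    rw [v3, log_mul_of nc nm (by linarith) (by linarith)]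
  have v5 : uph a 0 c = cos a * (cos c + I * (1 + sin c)) := by
    unfold uph
    rw [Complex.cos_zero, expI, Complex.cos_add, Complex.sin_add]
    linear_combination (-I) * h.cs
  have v6 : uph a 0 (-c) = cos a * (cos c + I * (1 - sin c)) := by
    unfold uph
    rw [Complex.cos_zero, expI, Complex.cos_add, Complex.sin_add, Complex.sin_neg, Complex.cos_neg]
    linear_combination (-I) * h.cs
  have Dre : (cos c + I * (1 + sin c)).re = (cos c).re - (sin c).im := by simp; ring
  have Dim : (cos c + I * (1 + sin c)).im = 1 + (cos c).im + (sin c).re := by simp; ring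
  have Ere : (cos c + I * (1 - sin c)).re = (cos c).re + (sin c).im := by simp
  have Eim : (cos c + I * (1 - sin c)).im = 1 + (cos c).im - (sin c).re := by simp; ring
  have D0 : 0 < (cos c + I * (1 + sin c)).re := by rw [Dre]; exact g.d1
  have E0 : 0 < (cos c + I * (1 - sin c)).re := by rw [Ere]; linarith [g.c1, g.s2]
  have pos : ∀ {z : ℂ}, 0 < z.re → 0 < z.im → 0 < (log z).im ∧ (log z).im < π / 2 := by
    intro z h0 h1
    have h2 := arg_half h0
    rw [abs_lt] at h2
    refine ⟨?_, h2.2⟩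
    rcases (arg_nonneg h1.le).lt_or_eq with h3 | h3
    · exact h3
    · exfalso
      have h4 := (arg_parts (z := z)).2
      rw [← h3, Real.sin_zero, mul_zero] at h4
      linarith
  have dp := pos D0 (by rw [Dim]; exact g.d2)
  have dm := pos E0 (by rw [Eim]; linarith [g.s1, g.c2])
  refine ⟨w0, w1, ⟨al0, al1⟩, ⟨lp0, lp1⟩, ⟨lm0.1, lm1⟩, np, nm, e1, e4, e2, e3, v2, v3, ?_, ?_, v5,
    v6, dp, dm, ne_of_re D0, ne_of_re E0⟩
  · rw [v5, log_mul_of nc (ne_of_re D0) (by linarith [dp.1]) (by linarith [dp.2])]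
  · rw [v6, log_mul_of nc (ne_of_re E0) (by linarith [dm.1]) (by linarith [dm.2])]

end Pool.Agent.Y482.Cz
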