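import Pool.Agent.Y482.Cz.Base

/-!
# The halves of a block at the base points
-/

set_option autoImplicit false

namespace Pool.Agent.Y482.Cz

open Filter
open Complex (exp log cos sin I)
open Pool.Agent.Y482.Chi hiding tri_a1 tri_a2 tri_b1 tri_b2
open scoped Real Topology ComplexConjugate

theorem hb_gen {a c : ℂ} (h : AG a (cos c)) (hC : 0 < (cos c).re)
    (w0 : 0 ≤ (log (cos c)).im) (w1 : (log (cos c)).im < π / 4)
    (al : -(π / 4) < (log (sin a)).im ∧ (log (sin a)).im ≤ 0)
    (lp : -(π / 2) < (log (1 + sin c)).im ∧ (log (1 + sin c)).im < 3 * π / 4)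
    (np : 1 + sin c ≠ 0) (e1 : log (cos a) = log (sin a) + log (cos c))
    (e2 : log (sin (a + c)) = log (cos a) + log (1 + sin c))
    (v2 : sin (a + c) = cos a * (1 + sin c))
    (e5 : log (uph a 0 c) = log (cos a) + log (cos c + I * (1 + sin c)))
    (v5 : uph a 0 c = cos a * (cos c + I * (1 + sin c)))
    (dp : 0 < (log (cos c + I * (1 + sin c))).im ∧ (log (cos c + I * (1 + sin c))).im < π / 2)
    (i1 : 0 < (sin c).im + (cos c).re + ((sin c).re * (cos c).re + (sin c).im * (cos c).im))
    (i3 : 0 < (cos c).re + ((sin c).re * (cos c).re + (sin c).im * (cos c).im))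
    (i4 : 0 < (cos c + I * (1 + sin c)).re) (x : |c.re| ≤ π / 4) : HB a 0 c := by
  have hpi := Real.pi_pos
  have nC : cos c ≠ 0 := ne_of_re hC
  have nS : sin a ≠ 0 := ne_of_re h.r1
  have nc : cos a ≠ 0 := ne_of_re h.r4
  have nD : cos c + I * (1 + sin c) ≠ 0 := ne_of_re i4
  have nU : uph a 0 c ≠ 0 := by rw [v5]; exact mul_ne_zero nc nD
  have ns : sin (a + c) ≠ 0 := by rw [v2]; exact mul_ne_zero nc np
  have e1i := congrArg Complex.im e1
  have e2i := congrArg Complex.im e2
  have e5i := congrArg Complex.im e5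
  rw [Complex.add_im] at e1i e2i e5i
  have a0 := h.a0
  have a1 := h.a1
  rw [abs_le] at x
  have A1 : aA1 a 0 = I * a - log (cos a) := by unfold aA1; simp
  have B1 : aB1 a 0 = I * (π / 2) + log (cos a) - log (sin a) := by unfold aB1; simp
  have A2 : aA2 a 0 c = I * (π / 2) + log (sin (a + c)) - I * a - log (cos c) := by
    unfold aA2; simp
  have B2 : aB2 a 0 c = log (cos c) + I * a + I * c - log (cos a) := by unfold aB2; simp
  have A3 : bA1 a 0 c = log (uph a 0 c) - log (cos a) - log (cos c) := by
    unfold bA1 Chi.ups; simp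
  have B3 : bB1 a 0 c = I * (π / 2) + log (cos a) + log (cos c) - log (sin (a + c)) := by
    unfold bB1; simp
  have A4 : bA2 a 0 c = I * (π / 2) + log (sin a) + log (cos c) - log (uph a 0 c) := by
    unfold bA2 Chi.ups; simp
  have B4 : bB2 a 0 c = log (uph a 0 c) - I * c - log (cos a) := by unfold bB2 Chi.ups; simp
  have iA1 : (aA1 a 0).im = a.re - (log (cos a)).im := by
    rw [A1]; simp only [Complex.sub_im, im_I_mul]
  have iB1 : (aB1 a 0).im = π / 2 + (log (cos a)).im - (log (sin a)).im := by
    rw [B1]; simp only [Complex.sub_im, Complex.add_im, im_I_mul, half_re]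
  have iA2 : (aA2 a 0 c).im = π / 2 + (log (sin (a + c))).im - a.re - (log (cos c)).im := by
    rw [A2]; simp only [Complex.sub_im, Complex.add_im, im_I_mul, half_re]
  have iB2 : (aB2 a 0 c).im = (log (cos c)).im + a.re + c.re - (log (cos a)).im := by
    rw [B2]; simp only [Complex.sub_im, Complex.add_im, im_I_mul]
  have iA3 : (bA1 a 0 c).im = (log (uph a 0 c)).im - (log (cos a)).im - (log (cos c)).im := by
    rw [A3]; simp only [Complex.sub_im]
  have iB3 : (bB1 a 0 c).im = π / 2 + (log (cos a)).im + (log (cos c)).im -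
      (log (sin (a + c))).im := by
    rw [B3]; simp only [Complex.sub_im, Complex.add_im, im_I_mul, half_re]
  have iA4 : (bA2 a 0 c).im = π / 2 + (log (sin a)).im + (log (cos c)).im -
      (log (uph a 0 c)).im := by
    rw [A4]; simp only [Complex.sub_im, Complex.add_im, im_I_mul, half_re]
  have iB4 : (bB2 a 0 c).im = (log (uph a 0 c)).im - c.re - (log (cos a)).im := by
    rw [B4]; simp only [Complex.sub_im, im_I_mul]
  have zb : cos (0 : ℂ) ≠ 0 := by rw [Complex.cos_zero]; exact one_ne_zero
  have zK : cos (0 + c) ≠ 0 := by rwa [zero_add]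
  have zp : cos (a + 0) ≠ 0 := by rwa [add_zero]
  have zm : cos (a - 0) ≠ 0 := by rwa [sub_zero]
  have iD : (I * conj (cos c + I * (1 + sin c))).im = (cos c + I * (1 + sin c)).re := by
    rw [im_I_mul, Complex.conj_re]
  refine ⟨?_, ?_, ?_, ?_, ?_, ?_, ?_, ?_, ?_, ?_, ?_⟩
  · refine tri_of (eq_a1 zb zp nS) ?_ (by linarith) (by linarith) (by linarith) (by linarith)
    apply im_pos_of (N := cos c + I) (D := cos c)
    · rw [A1, Complex.exp_sub, Complex.exp_log nc, expI, div_mul_eq_mul_div, div_eq_iff nc]
      linear_combination (-I) * h.cs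
    · have : ((cos c + I) * conj (cos c)).im = (cos c).re := by
        simp only [Complex.mul_im, Complex.add_re, Complex.add_im, Complex.I_re, Complex.I_im,
          Complex.conj_re, Complex.conj_im]
        ring
      rw [this]
      exact hC
  · refine tri_of (eq_a2 zK zm ns) ?_ (by linarith) (by linarith) (by linarith) (by linarith)
    apply im_pos_of (N := 1 + sin c) (D := 1 - I * cos c)
    · rw [A2, show I * (π / 2) + log (sin (a + c)) - I * a - log (cos c) =
        I * (π / 2) + log (sin (a + c)) + -(I * a) - log (cos c) by ring,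
        Complex.exp_sub, Complex.exp_add, Complex.exp_add, Complex.exp_log nC,
        Complex.exp_log ns, exp_half, expnI, v2, div_mul_eq_mul_div, div_eq_iff nC, h.cs]
      linear_combination (cos c * (1 + sin c)) * h.ss -
        (cos c * (1 + sin c) * sin a ^ 2 * (1 + cos c ^ 2 - I * cos c)) * Complex.I_sq
    · have : ((1 + sin c) * conj (1 - I * cos c)).im =
          (sin c).im + (cos c).re + ((sin c).re * (cos c).re + (sin c).im * (cos c).im) := by
        simp only [Complex.mul_im, Complex.mul_re, Complex.add_re, Complex.add_im,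
          Complex.sub_re, Complex.sub_im, Complex.one_re, Complex.one_im, Complex.I_re,
          Complex.I_im, Complex.conj_re, Complex.conj_im]
        ring
      rw [this]
      exact i1
  · refine tri_of (eq_b1 zb zK zp ns nU) ?_ (by linarith) (by linarith) (by linarith)
      (by linarith)
    apply im_pos_of (N := cos c + I * (1 + sin c)) (D := cos c)
    · rw [A3, Complex.exp_sub, Complex.exp_sub, Complex.exp_log nC, Complex.exp_log nc,
        Complex.exp_log nU, v5]
      field_simp
    · have : ((cos c + I * (1 + sin c)) * conj (cos c)).im =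
          (cos c).re + ((sin c).re * (cos c).re + (sin c).im * (cos c).im) := by
        simp only [Complex.mul_im, Complex.mul_re, Complex.add_re, Complex.add_im,
          Complex.one_re, Complex.one_im, Complex.I_re,
          Complex.I_im, Complex.conj_re, Complex.conj_im]
        ring
      rw [this]
      exact i3
  · refine tri_of (eq_b2 zb zK zm nS nU) ?_ (by linarith) (by linarith) (by linarith)
      (by linarith)
    apply im_pos_of (N := I) (D := cos c + I * (1 + sin c))
    · rw [A4, Complex.exp_sub, Complex.exp_add, Complex.exp_add, Complex.exp_log nC,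
        Complex.exp_log nS, Complex.exp_log nU, v5, exp_half, h.cs]
      field_simp
    · rw [iD]
      exact i4
  · rw [Complex.cos_zero]; exact sp_of_re (by simp)
  · rw [zero_add]; exact sp_of_re hC
  · rw [add_zero]; exact sp_of_re h.r4
  · rw [sub_zero]; exact sp_of_re h.r4
  · exact sp_of_im ns (by linarith)
  · exact sp_of_re h.r1
  · exact sp_of_im nU (by linarith)

theorem hb_p {a c : ℂ} (hc : RG c) (h : AG a (cos c)) : HB a 0 c := by
  have g := hc.tg
  have l := lg_base hc h
  refine hb_gen h g.c1 l.w0 l.w1 l.al ⟨by linarith [l.lp.1, Real.pi_pos], l.lp.2⟩ l.np l.e1 l.e2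
    l.v2 l.e5 l.v5 l.dp g.e1 g.e3 ?_ ?_
  · have Dre : (cos c + I * (1 + sin c)).re = (cos c).re - (sin c).im := by simp; ring
    rw [Dre]; exact g.d1
  · rw [abs_le]
    exact ⟨by linarith [hc.x0], by linarith [hc.x1, Real.pi_pos]⟩

theorem hb_m {a c : ℂ} (hc : RG c) (h : AG a (cos c)) : HB a 0 (-c) := by
  have g := hc.tg
  have l := lg_base hc h
  have hpi := Real.pi_pos
  have es : 1 + sin (-c) = 1 - sin c := by rw [Complex.sin_neg]; ring
  refine hb_gen (by rwa [Complex.cos_neg]) (by rw [Complex.cos_neg]; exact g.c1)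
    (by rw [Complex.cos_neg]; exact l.w0) (by rw [Complex.cos_neg]; exact l.w1) l.al
    (by rw [es]; exact ⟨l.lm.1, by linarith [l.lm.2]⟩) (by rw [es]; exact l.nm)
    (by rw [Complex.cos_neg]; exact l.e1) (by rw [es, ← sub_eq_add_neg]; exact l.e3)
    (by rw [es, ← sub_eq_add_neg]; exact l.v3) (by rw [es, Complex.cos_neg]; exact l.e6)
    (by rw [es, Complex.cos_neg]; exact l.v6) (by rw [es, Complex.cos_neg]; exact l.dm) ?_ ?_ ?_ ?_
  · rw [Complex.sin_neg, Complex.cos_neg, Complex.neg_im, Complex.neg_re]
    linarith [g.e2]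
  · rw [Complex.sin_neg, Complex.cos_neg, Complex.neg_im, Complex.neg_re]
    linarith [g.e4]
  · rw [es, Complex.cos_neg]
    have Ere : (cos c + I * (1 - sin c)).re = (cos c).re + (sin c).im := by simp
    rw [Ere]
    linarith [g.c1, g.s2]
  · rw [Complex.neg_re, abs_neg, abs_le]
    exact ⟨by linarith [hc.x0], by linarith [hc.x1]⟩

end Pool.Agent.Y482.Cz
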