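import Pool.Agent.Y482.Cz.Vol
import Pool.Agent.Y482.Chi.Ring

/-!
# Closed 3-braids, general `χ`: the critical structure has maximal volume
-/

set_option autoImplicit false

namespace Pool.Agent.Y482.Cz

open Finset Filter
open Complex (exp log cos sin I)
open Pool.Agent.W711.HT
open Pool.Agent.W719.AR (Fl S_VLF)
open Pool.Agent.W709.VC (Dv S_TET)
open Pool.Agent.W737.AR (Lf vol_le)
open Pool.Agent.Y482 (sum_succ_mod)
open Pool.Agent.Y482.Chi hiding tri_a1 tri_a2 tri_b1 tri_b2 blkAng blkCr blk_lf dvol crit_ang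
  crit_vol crit_max
open scoped Real Topology

lemma BG.lg1 {ψ ψ' χ u : ℂ} (h : BG (u / 2) (ψ / 2) (ψ' / 2) (χ / 2)) :
    Lg u ψ = lgr (u / 2) (ψ / 2) ∧ Lg u ψ' = lgr (u / 2) (ψ' / 2) ∧ Lc u χ = lcr (u / 2) (χ / 2) := by
  unfold Lg Lc
  rw [show (u - ψ) / 2 = u / 2 - ψ / 2 by ring, show (u + ψ) / 2 = u / 2 + ψ / 2 by ring,
    show (u - ψ') / 2 = u / 2 - ψ' / 2 by ring, show (u + ψ') / 2 = u / 2 + ψ' / 2 by ring,
    show (u - χ) / 2 = u / 2 - χ / 2 by ring, show (u + χ) / 2 = u / 2 + χ / 2 by ring]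
  exact ⟨h.q1, h.q2, h.q3⟩

/-- a solution of the critical point equations -/
structure CritZ (n : ℕ) (a : ℕ → ℤ) (m : ℤ) (z : ℕ → ℂ) (χ : ℂ) (u : ℕ → ℂ) : Prop where
  bz : ∀ j < n, BG (u j / 2) (z j / 2) (z ((j + 1) % n) / 2) (χ / 2)
  vert : ∀ j < n, I * (a ((j + 1) % n) * z ((j + 1) % n) + 2 * π) =
    Lg (u j) (z ((j + 1) % n)) + Lg (u ((j + 1) % n)) (z ((j + 1) % n))
  axis : I * (2 * m * χ + 2 * π) = ∑ j ∈ range n, Lc (u j) χ

section

variable {n : ℕ} {a : ℕ → ℤ} {m : ℤ} {z : ℕ → ℂ} {χ : ℂ} {u : ℕ → ℂ}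

lemma CritZ.lgr (h : CritZ n a m z χ u) {j : ℕ} (hj : j < n) :
    I * (a ((j + 1) % n) * (2 * (z ((j + 1) % n) / 2)) + 2 * π) =
      lgr (u j / 2) (z ((j + 1) % n) / 2) +
      Chi.lgr (u ((j + 1) % n) / 2) (z ((j + 1) % n) / 2) := by
  have h1 : (j + 1) % n < n := Nat.mod_lt _ (by omega)
  rw [← (h.bz j hj).lg1.2.1, ← (h.bz _ h1).lg1.1, show 2 * (z ((j + 1) % n) / 2) = z ((j + 1) % n) by
    ring]
  exact h.vert j hj

lemma CritZ.lcr (h : CritZ n a m z χ u) :
    I * (2 * m * (2 * (χ / 2)) + 2 * π) = ∑ j ∈ range n, lcr (u j / 2) (χ / 2) := by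
  rw [show 2 * (χ / 2) = χ by ring, h.axis]
  refine sum_congr rfl fun j hj => ?_
  rw [mem_range] at hj
  exact (h.bz j hj).lg1.2.2

theorem crit_ang (hn : 1 ≤ n) (h : CritZ n a m z χ u) :
    ChiAng n a m (fun j => flA (u j / 2) (z j / 2) (χ / 2))
      (fun j => flA (u j / 2) (-(z ((j + 1) % n) / 2)) (-(χ / 2)))
      (fun j => flB (u j / 2) (z j / 2) (χ / 2))
      (fun j => flB (u j / 2) (-(z ((j + 1) % n) / 2)) (-(χ / 2))) := by
  refine ⟨?_, ?_, ?_, ?_⟩
  · intro j hj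
    exact (h.bz j hj).pos
  · intro j hj
    exact ⟨((blkAng (h.bz j hj))).dA, ((blkAng (h.bz j hj))).dB⟩
  · intro j hj
    have h1 : (j + 1) % n < n := Nat.mod_lt _ (by omega)
    have q := (blkAng (h.bz j hj))
    have q' := (blkAng (h.bz _ h1))
    refine ⟨?_, ?_, ?_, ?_, ?_, ?_, ?_⟩
    · linarith [q.TS, q'.BS]
    · linarith [q.TA, q'.BA]
    · linarith [q.CAt, q'.CAb]
    · linarith [q.CRt, q'.CRb]
    · intro _
      exact ⟨by linarith [q.Pt, q'.Pb], by linarith [q.Qt, q'.Qb]⟩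
    · intro _
      exact ⟨by linarith [q.Qt, q'.Pb], by linarith [q.Pt, q'.Qb]⟩
    · obtain ⟨-, c2, -⟩ := blkCr (h.bz j hj)
      obtain ⟨c1, -, -⟩ := blkCr (h.bz _ h1)
      have he := congrArg Complex.im (h.lgr hj)
      rw [Complex.add_im, im_I_mul] at he
      simp only [Complex.add_re, Complex.mul_re, Complex.intCast_re, Complex.intCast_im, zero_mul,
        sub_zero, Complex.re_ofNat, Complex.im_ofNat, Complex.ofReal_re, Complex.ofReal_im] at he
      unfold Fl.cr Fl.tw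
      have q1 := q'.Pb
      have q2 := q'.Qb
      linear_combination c1 - c2 - 2 * he - (a ((j + 1) % n) : ℝ) * q1 - (a ((j + 1) % n) : ℝ) * q2
  · have h0 : 0 < n := by omega
    have hr : ∀ j ∈ range n, rho (flA (u j / 2) (z j / 2) (χ / 2))
        (flA (u j / 2) (-(z ((j + 1) % n) / 2)) (-(χ / 2)))
        (flB (u j / 2) (z j / 2) (χ / 2))
        (flB (u j / 2) (-(z ((j + 1) % n) / 2)) (-(χ / 2))) =
        -2 * (Chi.lcr (u j / 2) (χ / 2)).im + (2 * (log (cos (z j / 2 + χ / 2))).im -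
          2 * (log (cos (z ((j + 1) % n) / 2 + χ / 2))).im) := by
      intro j hj
      rw [mem_range] at hj
      obtain ⟨-, -, c3⟩ := blkCr (h.bz j hj)
      unfold rho
      linarith
    rw [sum_congr rfl hr, sum_add_distrib, sum_sub_distrib,
      sum_succ_mod n hn (fun j => 2 * (log (cos (z j / 2 + χ / 2))).im), sub_self, add_zero,
      ← mul_sum]
    have he := congrArg Complex.im h.lcr
    rw [Complex.im_sum, im_I_mul] at he
    have e1 : (2 * (m : ℂ) * (2 * (χ / 2)) + 2 * π).re = 2 * m * (2 * (χ / 2).re) + 2 * π := by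
      simp
    rw [e1] at he
    rw [← he]
    have q := (blkAng (h.bz 0 h0))
    have q1 := q.TA
    have q2 := q.CAt
    unfold rlam
    linear_combination (2 * (m : ℝ)) * q1 + 2 * (m : ℝ) * q2

lemma crit_vol (n : ℕ) (z : ℕ → ℂ) (χ : ℂ) (u : ℕ → ℂ) :
    chiVol n (fun j => flA (u j / 2) (z j / 2) (χ / 2))
      (fun j => flA (u j / 2) (-(z ((j + 1) % n) / 2)) (-(χ / 2)))
      (fun j => flB (u j / 2) (z j / 2) (χ / 2))
      (fun j => flB (u j / 2) (-(z ((j + 1) % n) / 2)) (-(χ / 2))) =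
      ∑ j ∈ range n, bv (u j / 2) (z j / 2) (z ((j + 1) % n) / 2) (χ / 2) := rfl

theorem crit_max (htet : S_TET) (hn : 1 ≤ n) (h : CritZ n a m z χ u) {f g F G : ℕ → Fl}
    (hy : ChiAng n a m f g F G) :
    chiVol n f g F G ≤ chiVol n (fun j => flA (u j / 2) (z j / 2) (χ / 2))
      (fun j => flA (u j / 2) (-(z ((j + 1) % n) / 2)) (-(χ / 2)))
      (fun j => flB (u j / 2) (z j / 2) (χ / 2))
      (fun j => flB (u j / 2) (-(z ((j + 1) % n) / 2)) (-(χ / 2))) := by
  have h0 : 0 < n := by omega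
  -- the rotation along the longitude of the axis is constant
  have hR : ∀ j < n, rlam (f j) (g j) (F j) (G j) = rlam (f 0) (g 0) (F 0) (G 0) := by
    intro j
    induction j with
    | zero => intro _; rfl
    | succ k ih =>
      intro hk
      have hk' : k < n := by omega
      have e : (k + 1) % n = k + 1 := Nat.mod_eq_of_lt hk
      have hv := hy.vert k hk'
      rw [e] at hv
      obtain ⟨p1, p2, p3, p4⟩ := hy.pos _ hk
      obtain ⟨d1, d2⟩ := hy.diag _ hk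
      rw [rlam_step hv p1 p2 p3 p4 d1 d2, ih hk']
  have h1 : chiVol n f g F G ≤
      chiVol n (fun j => flA (u j / 2) (z j / 2) (χ / 2))
      (fun j => flA (u j / 2) (-(z ((j + 1) % n) / 2)) (-(χ / 2)))
      (fun j => flB (u j / 2) (z j / 2) (χ / 2))
      (fun j => flB (u j / 2) (-(z ((j + 1) % n) / 2)) (-(χ / 2))) -
      ∑ j ∈ range n, (TB (u j / 2) (z j / 2) (χ / 2) ((log (cos (z j / 2 + χ / 2))).re +
          (log (cos (z j / 2 - χ / 2))).re) (f j) (g j) (F j) (G j) +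
        TU (u j / 2) (z ((j + 1) % n) / 2) (χ / 2) ((log (cos (z ((j + 1) % n) / 2 + χ / 2))).re +
          (log (cos (z ((j + 1) % n) / 2 - χ / 2))).re) (f j) (g j) (F j) (G j) +
        TX (u j / 2) (z j / 2) (z ((j + 1) % n) / 2) (χ / 2) (f j) (g j) (F j) (G j)) := by
    unfold chiVol
    rw [← sum_sub_distrib]
    refine sum_le_sum fun j hj => ?_
    rw [mem_range] at hj
    have hB := h.bz j hj
    obtain ⟨b1, b2, b3, b4⟩ := hB.pos
    obtain ⟨p1, p2, p3, p4⟩ := hy.pos j hj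
    obtain ⟨d1, d2⟩ := hy.diag j hj
    have key := blk_lf hB p1 p2 p3 p4 d1 d2
    have v1 := vol_le htet _ (f j) b1 p1
    have v2 := vol_le htet _ (g j) b2 p2
    have v3 := vol_le htet _ (F j) b3 p3
    have v4 := vol_le htet _ (G j) b4 p4
    linarith
  have h2 : ∑ j ∈ range n, (TB (u j / 2) (z j / 2) (χ / 2) ((log (cos (z j / 2 + χ / 2))).re +
          (log (cos (z j / 2 - χ / 2))).re) (f j) (g j) (F j) (G j) +
        TU (u j / 2) (z ((j + 1) % n) / 2) (χ / 2) ((log (cos (z ((j + 1) % n) / 2 + χ / 2))).re +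
          (log (cos (z ((j + 1) % n) / 2 - χ / 2))).re) (f j) (g j) (F j) (G j) +
        TX (u j / 2) (z j / 2) (z ((j + 1) % n) / 2) (χ / 2) (f j) (g j) (F j) (G j)) = 0 := by
    rw [sum_add_distrib, sum_add_distrib,
      ← sum_succ_mod n hn (fun j => TB (u j / 2) (z j / 2) (χ / 2)
        ((log (cos (z j / 2 + χ / 2))).re + (log (cos (z j / 2 - χ / 2))).re)
        (f j) (g j) (F j) (G j)), ← sum_add_distrib]
    have e1 : ∑ j ∈ range n, (TB (u ((j + 1) % n) / 2) (z ((j + 1) % n) / 2) (χ / 2)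
        ((log (cos (z ((j + 1) % n) / 2 + χ / 2))).re +
          (log (cos (z ((j + 1) % n) / 2 - χ / 2))).re)
        (f ((j + 1) % n)) (g ((j + 1) % n)) (F ((j + 1) % n)) (G ((j + 1) % n)) +
        TU (u j / 2) (z ((j + 1) % n) / 2) (χ / 2) ((log (cos (z ((j + 1) % n) / 2 + χ / 2))).re +
          (log (cos (z ((j + 1) % n) / 2 - χ / 2))).re) (f j) (g j) (F j) (G j)) = 0 := by
      refine sum_eq_zero fun j hj => ?_
      rw [mem_range] at hj
      exact vertexX (hy.vert j hj) (h.lgr hj) _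
    rw [e1, zero_add]
    have e2 : ∀ j ∈ range n, TX (u j / 2) (z j / 2) (z ((j + 1) % n) / 2) (χ / 2) (f j) (g j) (F j)
        (G j) = (Chi.lcr (u j / 2) (χ / 2)).re *
          ((rlam (f 0) (g 0) (F 0) (G 0) - 4 * (χ / 2).re) / 2) +
        (-(χ / 2).im) * (rho (f j) (g j) (F j) (G j)) +
        (-2 * (χ / 2).im) * (Chi.lcr (u j / 2) (χ / 2)).im +
        ((χ / 2).im * (2 * (log (cos (z j / 2 + χ / 2))).im) -
        (χ / 2).im * (2 * (log (cos (z ((j + 1) % n) / 2 + χ / 2))).im)) := by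
      intro j hj
      rw [mem_range] at hj
      have := hR j hj
      rw [← this]
      unfold TX rlam rho
      ring
    rw [sum_congr rfl e2, sum_add_distrib, sum_add_distrib, sum_add_distrib, sum_sub_distrib,
      sum_succ_mod n hn (fun j => (χ / 2).im * (2 * (log (cos (z j / 2 + χ / 2))).im)), sub_self,
      add_zero, ← sum_mul, ← mul_sum, ← mul_sum, hy.fill]
    have he := congrArg Complex.im h.lcr
    have hf := congrArg Complex.re h.lcr
    rw [Complex.im_sum, im_I_mul] at he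
    rw [Complex.re_sum, re_I_mul] at hf
    have g1 : (2 * (m : ℂ) * (2 * (χ / 2)) + 2 * π).re = 2 * m * (2 * (χ / 2).re) + 2 * π := by
      simp
    have g2 : (2 * (m : ℂ) * (2 * (χ / 2)) + 2 * π).im = 2 * m * (2 * (χ / 2).im) := by
      simp
    rw [g1] at he
    rw [g2] at hf
    rw [← he, ← hf]
    ring
  rw [h2] at h1
  linarith

end

theorem geow (htet : S_TET) {n : ℕ} {a : ℕ → ℤ} {m : ℤ} {z : ℕ → ℂ} {χ : ℂ} {u : ℕ → ℂ}
    (hn : 1 ≤ n) (h : CritZ n a m z χ u) :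
    IsGreatest {W : ℝ | ∃ f g F G : ℕ → Fl, ChiAng n a m f g F G ∧ chiVol n f g F G = W}
      (∑ j ∈ range n, bv (u j / 2) (z j / 2) (z ((j + 1) % n) / 2) (χ / 2)) := by
  refine ⟨⟨_, _, _, _, crit_ang hn h, crit_vol n z χ u⟩, ?_⟩
  rintro W ⟨f, g, F, G, hy, rfl⟩
  rw [← crit_vol n z χ u]
  exact crit_max htet hn h hy

end Pool.Agent.Y482.Cz
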