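import Pool.Agent.Y482.Cz.Max
import Pool.Agent.Y482.Chi.Vol

/-!
# The derivative of the volume of a block, general form
-/

set_option autoImplicit false

namespace Pool.Agent.Y482.Cz

open Filter
open Complex (exp log cos sin I)
open Pool.Agent.W719.AR (Fl)
open Pool.Agent.Y482.Chi hiding tri_a1 tri_a2 tri_b1 tri_b2 blkAng blkCr blk_lf
open scoped Real Topology

theorem volR (sa sp sm Cp Cm Dp Dm kb kd K K' U Ut ya yb yd yc : ℝ)
    (dsa dsp dsm dCp dCm dDp dDm dkb dkd dK dK' dU dUt xa xb xd xc : ℝ)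
    (r1 : Dm = 2 * sa + sp + sm - Cp - Cm - Dp) (r2 : Ut = U + sa + sm + yc - Cp - Cm)
    (q1 : dDm = 2 * dsa + dsp + dsm - dCp - dCm - dDp)
    (q2 : dUt = dU + dsa + dsm - xc - dCp - dCm) :
    ((Cp - yb - sa) * (dkb + xa - dCp) - (kb - ya - Cp) * (dCp + xb - dsa)) +
    ((K - ya - yc - Cm) * (dsp - xa + xb - dK) - (sp + ya - yb - K) * (dK + xa + xc - dCm)) +
    ((Dm + yd - sa) * (dkd + xa - dDm) - (kd - ya - Dm) * (dDm - xd - dsa)) +
    ((K' - ya + yc - Dp) * (dsm - xa - xd - dK') - (sm + ya + yd - K') * (dK' + xa - xc - dDp)) +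
    ((-yb + Cp + K - kb - sp) * (dU - dCp - dK) - (U - Cp - K) * (xb + dCp + dK - dkb - dsp)) +
    ((U + yc - Cm - kb) * (dsa + xb + dK - dU) - (sa - yb + K - U) * (dU - xc - dCm - dkb)) +
    ((yd + Dm + K' - kd - sm) * (dUt - dDm - dK') - (Ut - Dm - K') * (-xd + dDm + dK' - dkd - dsm)) +
    ((Ut - yc - Dp - kd) * (dsa - xd + dK' - dUt) - (sa + yd + K' - Ut) * (dUt + xc - dDp - dkd)) =
    -2 * ((Cm - Cp) * xb + yb * (dCm - dCp) + ((Dm - Dp) * xd + yd * (dDm - dDp)) +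
      ((sp - sm) * xc + yc * (dsp - dsm))) -
    2 * ((kb * xb + yb * dkb) - (K * (xb + xc) + (yb + yc) * dK) - (kd * xd + yd * dkd) +
      (K' * (xd + xc) + (yd + yc) * dK')) := by
  subst r1 r2 q1 q2
  ring

/-- the correction at a vertex -/
noncomputable def EL (Λ : ℂ → ℂ) (x : ℂ) : ℝ := -2 * ((Λ x).re + x.im * (log (cos x)).im)

section
variable {f : ℝ → ℂ} {f' p : ℂ} {s : ℝ}

lemma dim (hf : HasDerivAt f f' s) : HasDerivAt (fun t => (f t).im) f'.im s :=
  Complex.imCLM.hasFDerivAt.comp_hasDerivAt s hf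

lemma dre (hf : HasDerivAt f f' s) : HasDerivAt (fun t => (f t).re) f'.re s :=
  Complex.reCLM.hasFDerivAt.comp_hasDerivAt s hf

lemma dEL {Λ : ℂ → ℂ} (hf : HasDerivAt f f' s) (hΛ : HasDerivAt Λ (log (cos (f s))) (f s))
    (hp : HasDerivAt (fun t => log (cos (f t))) p s) :
    HasDerivAt (fun t => EL Λ (f t))
      (-2 * ((log (cos (f s))).re * f'.re + (f s).im * p.im)) s := by
  have h1 := dre (hΛ.comp s hf)
  have h2 := (dim hf).mul (dim hp)
  have h3 := (h1.add h2).const_mul (-2)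
  unfold EL
  refine h3.congr_deriv ?_
  rw [Complex.mul_re]
  ring

end

theorem dvol {Λ : ℂ → ℂ} (hΛ : ∀ z ∈ Metric.ball (0 : ℂ) (π / 2), HasDerivAt Λ (log (cos z)) z)
    {af bf df cf : ℝ → ℂ} {a' b' d' c' : ℂ} {s : ℝ} (haf : HasDerivAt af a' s)
    (hbf : HasDerivAt bf b' s) (hdf : HasDerivAt df d' s) (hcf : HasDerivAt cf c' s)
    (hev : ∀ᶠ t : ℝ in 𝓝 s, BG (af t) (bf t) (df t) (cf t))
    (m1 : bf s ∈ Metric.ball (0 : ℂ) (π / 2)) (m2 : bf s + cf s ∈ Metric.ball (0 : ℂ) (π / 2))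
    (m3 : df s ∈ Metric.ball (0 : ℂ) (π / 2)) (m4 : df s + cf s ∈ Metric.ball (0 : ℂ) (π / 2)) :
    HasDerivAt (fun t : ℝ => bv (af t) (bf t) (df t) (cf t) +
      2 * ((bf t).im * (lgr (af t) (bf t)).im + (df t).im * (lgr (af t) (df t)).im +
        (cf t).im * (lcr (af t) (cf t)).im) -
      (EL Λ (bf t) - EL Λ (bf t + cf t) - (EL Λ (df t) - EL Λ (df t + cf t))))
      (-2 * (lgr (af s) (bf s) * b' + lgr (af s) (df s) * d' + lcr (af s) (cf s) * c').re) s := by
  have h := hev.self_of_nhds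
  obtain ⟨psa, hsa⟩ : ∃ p, HasDerivAt (fun t => log (sin (af t))) p s :=
    ⟨_, (hsin haf).clog_real h.ssa⟩
  obtain ⟨psp, hsp⟩ : ∃ p, HasDerivAt (fun t => log (sin (af t + cf t))) p s :=
    ⟨_, (hsin (haf.add hcf)).clog_real h.ssp⟩
  obtain ⟨psm, hsm⟩ : ∃ p, HasDerivAt (fun t => log (sin (af t - cf t))) p s :=
    ⟨_, (hsin (haf.sub hcf)).clog_real h.ssm⟩
  obtain ⟨pCp, hCp⟩ : ∃ p, HasDerivAt (fun t => log (cos (af t + bf t))) p s :=
    ⟨_, (hcos (haf.add hbf)).clog_real h.sCp⟩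
  obtain ⟨pCm, hCm⟩ : ∃ p, HasDerivAt (fun t => log (cos (af t - bf t))) p s :=
    ⟨_, (hcos (haf.sub hbf)).clog_real h.sCm⟩
  obtain ⟨pDp, hDp⟩ : ∃ p, HasDerivAt (fun t => log (cos (af t + df t))) p s :=
    ⟨_, (hcos (haf.add hdf)).clog_real h.sDp⟩
  obtain ⟨pDm, hDm⟩ : ∃ p, HasDerivAt (fun t => log (cos (af t - df t))) p s :=
    ⟨_, (hcos (haf.sub hdf)).clog_real h.sDm⟩
  obtain ⟨pkb, hkb⟩ : ∃ p, HasDerivAt (fun t => log (cos (bf t))) p s :=
    ⟨_, (hcos hbf).clog_real h.sb⟩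
  obtain ⟨pkd, hkd⟩ : ∃ p, HasDerivAt (fun t => log (cos (df t))) p s :=
    ⟨_, (hcos hdf).clog_real h.sd⟩
  obtain ⟨pK, hK⟩ : ∃ p, HasDerivAt (fun t => log (cos (bf t + cf t))) p s :=
    ⟨_, (hcos (hbf.add hcf)).clog_real h.sK⟩
  obtain ⟨pE, hE⟩ : ∃ p, HasDerivAt (fun t => log (cos (df t + cf t))) p s :=
    ⟨_, (hcos (hdf.add hcf)).clog_real h.sE⟩
  obtain ⟨pU, hU⟩ : ∃ p, HasDerivAt (fun t : ℝ => ups (af t) (bf t) (cf t)) p s := by
    have h0 : HasDerivAt (fun t : ℝ => cos (bf t) ^ 2) _ s := (hcos hbf).pow 2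
    have h1 : HasDerivAt (fun t : ℝ => uph (af t) (bf t) (cf t)) _ s :=
      (h0.mul (hexp ((haf.add hcf).const_mul I))).add ((hsin haf).mul (hsin hcf))
    exact ⟨_, h1.clog_real h.sU⟩
  obtain ⟨pUt, hUt⟩ : ∃ p, HasDerivAt (fun t : ℝ => ups (af t) (-df t) (-cf t)) p s := by
    have h0 : HasDerivAt (fun t : ℝ => cos (-df t) ^ 2) _ s := (hcos hdf.neg).pow 2
    have h1 : HasDerivAt (fun t : ℝ => uph (af t) (-df t) (-cf t)) _ s :=
      (h0.mul (hexp ((haf.add hcf.neg).const_mul I))).add ((hsin haf).mul (hsin hcf.neg))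
    exact ⟨_, h1.clog_real h.sUt⟩
  -- relations between the derivatives
  have q1 : pCp + pCm + pDp + pDm = 2 * psa + psp + psm :=
    deq (((hCp.add hCm).add hDp).add hDm) (((hsa.const_mul 2).add hsp).add hsm) (by
      filter_upwards [hev] with t ht
      exact ht.r1)
  have q2 : pUt = pU + psa + psm - I * c' - pCp - pCm :=
    deq hUt (((((hU.add hsa).add hsm).sub (hcf.const_mul I)).sub hCp).sub hCm) (by
      filter_upwards [hev] with t ht
      exact ht.r2)
  -- the eight tetrahedra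
  have v1 := h.ta1.hasDeriv (A := fun t => aA1 (af t) (bf t)) (B := fun t => aB1 (af t) (bf t))
    ((hkb.add (haf.const_mul I)).sub hCp)
    (((hCp.const_add (I * (π / 2))).add (hbf.const_mul I)).sub hsa)
  have v2 := h.ta2.hasDeriv (A := fun t : ℝ => aA2 (af t) (bf t) (cf t))
    (B := fun t : ℝ => aB2 (af t) (bf t) (cf t))
    ((((hsp.const_add (I * (π / 2))).sub (haf.const_mul I)).add (hbf.const_mul I)).sub hK)
    (((hK.add (haf.const_mul I)).add (hcf.const_mul I)).sub hCm)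
  have v3 := h.tb1.hasDeriv (A := fun t : ℝ => bA1 (af t) (bf t) (cf t))
    (B := fun t : ℝ => bB1 (af t) (bf t) (cf t))
    ((hU.sub hCp).sub hK)
    ((((((hbf.const_mul I).const_add (I * (π / 2))).add hCp).add hK).sub hkb).sub hsp)
  have v4 := h.tb2.hasDeriv (A := fun t : ℝ => bA2 (af t) (bf t) (cf t))
    (B := fun t : ℝ => bB2 (af t) (bf t) (cf t))
    ((((hsa.const_add (I * (π / 2))).add (hbf.const_mul I)).add hK).sub hU)
    (((hU.sub (hcf.const_mul I)).sub hCm).sub hkb)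
  have E : ∀ t : ℝ, _ := fun t => top_eq (af t) (df t) (cf t)
  have w1 := h.ua1.hasDeriv (A := fun t => aA1 (af t) (-df t)) (B := fun t => aB1 (af t) (-df t))
    (((hkd.add (haf.const_mul I)).sub hDm).congr_of_eventuallyEq
      (Eventually.of_forall fun t => (E t).1))
    ((((hDm.const_add (I * (π / 2))).sub (hdf.const_mul I)).sub hsa).congr_of_eventuallyEq
      (Eventually.of_forall fun t => (E t).2.1))
  have w2 := h.ua2.hasDeriv (A := fun t : ℝ => aA2 (af t) (-df t) (-cf t))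
    (B := fun t : ℝ => aB2 (af t) (-df t) (-cf t))
    (((((hsm.const_add (I * (π / 2))).sub (haf.const_mul I)).sub (hdf.const_mul I)).sub
      hE).congr_of_eventuallyEq (Eventually.of_forall fun t => (E t).2.2.1))
    ((((hE.add (haf.const_mul I)).sub (hcf.const_mul I)).sub hDp).congr_of_eventuallyEq
      (Eventually.of_forall fun t => (E t).2.2.2.1))
  have w3 := h.ub1.hasDeriv (A := fun t : ℝ => bA1 (af t) (-df t) (-cf t))
    (B := fun t : ℝ => bB1 (af t) (-df t) (-cf t))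
    (((hUt.sub hDm).sub hE).congr_of_eventuallyEq
      (Eventually.of_forall fun t => (E t).2.2.2.2.1))
    (((((((hdf.const_mul I).const_sub (I * (π / 2))).add hDm).add hE).sub hkd).sub
      hsm).congr_of_eventuallyEq (Eventually.of_forall fun t => (E t).2.2.2.2.2.1))
  have w4 := h.ub2.hasDeriv (A := fun t : ℝ => bA2 (af t) (-df t) (-cf t))
    (B := fun t : ℝ => bB2 (af t) (-df t) (-cf t))
    (((((hsa.const_add (I * (π / 2))).sub (hdf.const_mul I)).add hE).sub hUt).congr_of_eventuallyEq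
      (Eventually.of_forall fun t => (E t).2.2.2.2.2.2.1))
    ((((hUt.add (hcf.const_mul I)).sub hDp).sub hkd).congr_of_eventuallyEq
      (Eventually.of_forall fun t => (E t).2.2.2.2.2.2.2))
  -- the corrections
  have l1 : HasDerivAt (fun t => (lgr (af t) (bf t)).im) (pCm - pCp).im s := dim (hCm.sub hCp)
  have l2 : HasDerivAt (fun t => (lgr (af t) (df t)).im) (pDm - pDp).im s := dim (hDm.sub hDp)
  have l3 : HasDerivAt (fun t => (lcr (af t) (cf t)).im) (psp - psm).im s := dim (hsp.sub hsm)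
  have L := ((((dim hbf).mul l1).add ((dim hdf).mul l2)).add ((dim hcf).mul l3)).const_mul 2
  have e1 := dEL hbf (hΛ _ m1) hkb
  have e2 := dEL (hbf.add hcf) (hΛ _ m2) hK
  have e3 := dEL hdf (hΛ _ m3) hkd
  have e4 := dEL (hdf.add hcf) (hΛ _ m4) hE
  have V := (((v1.add v2).add (w1.add w2)).add (v3.add v4)).add (w3.add w4)
  have T := (V.add L).sub ((e1.sub e2).sub (e3.sub e4))
  refine T.congr_deriv ?_
  clear T V L v1 v2 v3 v4 w1 w2 w3 w4 e1 e2 e3 e4 l1 l2 l3
  have e1 := congrArg Complex.re h.r1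
  have e2 := congrArg Complex.re h.r2
  have m1 := congrArg Complex.im q1
  have m2 := congrArg Complex.im q2
  simp only [Complex.add_re, Complex.sub_re, re_two, re_I_mul] at e1 e2
  simp only [Complex.add_im, Complex.sub_im, im_two, im_I_mul] at m1 m2
  have key := volR (log (sin (af s))).re (log (sin (af s + cf s))).re
    (log (sin (af s - cf s))).re (log (cos (af s + bf s))).re (log (cos (af s - bf s))).re
    (log (cos (af s + df s))).re (log (cos (af s - df s))).re (log (cos (bf s))).re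
    (log (cos (df s))).re (log (cos (bf s + cf s))).re (log (cos (df s + cf s))).re
    (ups (af s) (bf s) (cf s)).re (ups (af s) (-df s) (-cf s)).re
    (af s).im (bf s).im (df s).im (cf s).im
    psa.im psp.im psm.im pCp.im pCm.im pDp.im pDm.im pkb.im pkd.im pK.im pE.im pU.im pUt.im
    a'.re b'.re d'.re c'.re
    (by linarith) (by linarith) (by linarith) (by linarith)
  obtain ⟨t1, t2, t3, t4, t5, t6, t7, t8⟩ := top_eq (af s) (df s) (cf s)
  simp only [t1, t2, t3, t4, t5, t6, t7, t8]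
  rw [Complex.add_re (_ + _) (lcr (af s) (cf s) * c'), Complex.add_re (lgr (af s) (bf s) * b'),
    Complex.mul_re (lgr (af s) (bf s)), Complex.mul_re (lgr (af s) (df s)),
    Complex.mul_re (lcr (af s) (cf s))]
  simp only [Pi.add_apply, aA1, aB1, aA2, aB2, bA1, bB1, bA2, bB2, lgr, lcr,
    Complex.add_re, Complex.sub_re, Complex.add_im, Complex.sub_im, re_I_mul, im_I_mul,
    half_im, Complex.neg_im]
  linear_combination key

end Pool.Agent.Y482.Cz
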